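import Pool.Agent.Q72.NW.Fin
import Pool.Agent.W603.GR.Main

/-!
Places with centre on the boundary.
-/

set_option autoImplicit false

namespace Pool.Agent.Q161.PD

open MvPolynomial FF
open Pool.Agent.W603.LV Pool.Agent.W603.PV Pool.Agent.W602.GT Pool.Agent.W603.GR
open Pool.Agent.Q72.NW (Cone pow_mem)

variable {N n : ℕ} {K : Type} [Field K] [Algebra ℂ K] {a : Fin (N + 1) → K}

/-- evaluation of the elements of an ideal generated by forms vanishing at the generic point and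
other elements -/
theorem span_eval {T : Set (MvPolynomial (Fin (N + 1)) ℂ)} (P : Place ℂ K) {y : Fin (N + 1) → K}
    (hy : ∀ i, P.Reg (y i)) {t : K}
    (h1 : ∀ (H : MvPolynomial (Fin (N + 1)) ℂ) (D : ℕ), H.IsHomogeneous D → aeval a H = 0 →
      aeval y H = 0)
    (h2 : ∀ H ∈ T, ∃ c, P.Reg c ∧ aeval y H = c * t) {G : MvPolynomial (Fin (N + 1)) ℂ}
    (hG : G ∈ Ideal.span ({H | (∃ D, H.IsHomogeneous D) ∧ aeval a H = 0} ∪ T)) :
    ∃ c, P.Reg c ∧ aeval y G = c * t := by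
  refine Submodule.span_induction (p := fun G _ => ∃ c, P.Reg c ∧ aeval y G = c * t)
    ?_ ?_ ?_ ?_ hG
  · rintro H (⟨⟨D, hD⟩, hHa⟩ | hH)
    · exact ⟨0, P.reg_zero, by rw [h1 H D hD hHa, zero_mul]⟩
    · exact h2 H hH
  · exact ⟨0, P.reg_zero, by rw [map_zero, zero_mul]⟩
  · rintro x z _ _ ⟨c, hc, hx⟩ ⟨c', hc', hz⟩
    exact ⟨c + c', P.reg_add hc hc', by rw [map_add, hx, hz, add_mul]⟩
  · rintro r x _ ⟨c, hc, hx⟩
    exact ⟨aeval y r * c, P.reg_mul (reg_aeval P hy r) hc, by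
      rw [smul_eq_mul, map_mul, hx, mul_assoc]⟩

theorem offQ_ord (ha : a ≠ 0) (f : Fin (n + 1) → MvPolynomial (Fin (N + 1)) ℂ) {e : ℕ}
    (hf : ∀ i, (f i).IsHomogeneous e) (hf0 : ∀ i, aeval a (f i) ≠ 0)
    (hcz : ∀ x ∈ Cone a, x ≠ 0 → ∃ i, eval x (f i) ≠ 0)
    {Q : MvPolynomial (Fin (N + 1)) ℂ} {q : ℕ} (hQ : Q.IsHomogeneous q) (hQa : aeval a Q ≠ 0)
    (hbd : ∀ x ∈ Cone a, eval x Q = 0 → ∃ i, eval x (f i) = 0) (P : Place ℂ K)
    (hP : OffQ Q q a P) : ∃ i, P.ord (aeval a (f i)) ≠ P.ord (aeval a (f 0)) := by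
  classical
  obtain ⟨i0, h0, hmin⟩ := exists_min P ha
  obtain ⟨i1, hi1, hlt⟩ := hP
  have hlt0 : q * P.ord (a i0) < P.ord (aeval a Q) :=
    lt_of_le_of_lt (mul_le_mul_of_nonneg_left (hmin i1 hi1) (Nat.cast_nonneg q)) hlt
  obtain ⟨y, hy⟩ : ∃ y : Fin (N + 1) → K, y = fun i => a i / a i0 := ⟨_, rfl⟩
  have hyr : ∀ i, P.Reg (y i) := by
    intro i
    rw [hy]
    by_cases hi : a i = 0
    · left
      simp only
      rw [hi, zero_div]
    · right
      simp only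
      rw [P.ord_div hi h0]
      linarith [hmin i hi]
  have hsc : ∀ (H : MvPolynomial (Fin (N + 1)) ℂ) (D : ℕ), H.IsHomogeneous D →
      aeval a H = a i0 ^ D * aeval y H := by
    intro H D hH
    rw [hy, ← aeval_scale hH (fun i => a i / a i0) (a i0)]
    congr 2
    funext i
    field_simp
  have hne0 : ∀ D : ℕ, a i0 ^ D ≠ 0 := fun D => pow_ne_zero D h0
  have h1 : ∀ (H : MvPolynomial (Fin (N + 1)) ℂ) (D : ℕ), H.IsHomogeneous D → aeval a H = 0 →
      aeval y H = 0 := by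
    intro H D hH hHa
    rw [hsc H D hH] at hHa
    exact (mul_eq_zero.1 hHa).resolve_left (hne0 D)
  have hQy : aeval y Q ≠ 0 := fun h => hQa (by rw [hsc Q q hQ, h, mul_zero])
  have hfy : ∀ i, aeval y (f i) ≠ 0 := fun i h => hf0 i (by rw [hsc _ e (hf i), h, mul_zero])
  have hQo : 0 < P.ord (aeval y Q) := by
    rw [hsc Q q hQ, P.ord_mul (hne0 q) hQy, P.ord_pow] at hlt0
    linarith
  have hfo : ∀ i, P.ord (aeval a (f i)) = e * P.ord (a i0) + P.ord (aeval y (f i)) := by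
    intro i
    rw [hsc _ e (hf i), P.ord_mul (hne0 e) (hfy i), P.ord_pow]
  by_contra hcon
  push Not at hcon
  obtain ⟨t, ht⟩ : ∃ t, t = P.ord (aeval y (f 0)) := ⟨_, rfl⟩
  have hft : ∀ i, P.ord (aeval y (f i)) = t := by
    intro i
    have h2 := hcon i
    rw [hfo, hfo] at h2
    rw [ht]
    linarith
  -- the product
  obtain ⟨m, hm⟩ : ∃ m : ℕ, (∏ i, f i) ^ m ∈
      Ideal.span ({H | (∃ D, H.IsHomogeneous D) ∧ aeval a H = 0} ∪ {Q}) := by
    have h2 : (∏ i, f i) ∈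
        (Ideal.span ({H | (∃ D, H.IsHomogeneous D) ∧ aeval a H = 0} ∪ {Q})).radical := by
      rw [← vanishingIdeal_zeroLocus_eq_radical (K := ℂ), mem_vanishingIdeal_iff]
      intro x hx
      rw [zeroLocus_span] at hx
      obtain ⟨i, hi⟩ := hbd x (fun H D hH hHa => hx H (Or.inl ⟨⟨D, hH⟩, hHa⟩))
        (hx Q (Or.inr rfl))
      show aeval x (∏ i, f i) = 0
      rw [map_prod]
      exact Finset.prod_eq_zero (Finset.mem_univ i) hi
    exact h2
  obtain ⟨c, hc, hcm⟩ := span_eval P hyr h1 (t := aeval y Q) (fun H hH => by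
    rw [Set.mem_singleton_iff.1 hH]
    exact ⟨1, P.reg_one, by rw [one_mul]⟩) hm
  have hprod : aeval y ((∏ i, f i) ^ m) ≠ 0 := by
    rw [map_pow, map_prod]
    exact pow_ne_zero _ (Finset.prod_ne_zero_iff.2 fun i _ => hfy i)
  have hc0 : c ≠ 0 := by
    rintro rfl
    rw [zero_mul] at hcm
    exact hprod hcm
  have ht0 : 0 < t := by
    have h2 : P.ord (aeval y ((∏ i, f i) ^ m)) = m * ((n + 1 : ℕ) * t) := by
      have h3 : ∀ s : Finset (Fin (n + 1)), P.ord (∏ i ∈ s, aeval y (f i)) = s.card * t := by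
        intro s
        induction s using Finset.induction_on with
        | empty => simp [P.ord_one]
        | insert i s hi ih =>
          rw [Finset.prod_insert hi, P.ord_mul (hfy i)
            (Finset.prod_ne_zero_iff.2 fun j _ => hfy j), ih, hft, Finset.card_insert_of_notMem hi]
          push_cast
          ring
      rw [map_pow, map_prod, P.ord_pow, h3, Finset.card_univ, Fintype.card_fin]
    rw [hcm, P.ord_mul hc0 hQy] at h2
    have h4 := (P.reg_iff hc0).1 hc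
    by_contra h5
    have h6 : (m : ℤ) * ((n + 1 : ℕ) * t) ≤ 0 :=
      mul_nonpos_of_nonneg_of_nonpos (Nat.cast_nonneg m)
        (mul_nonpos_of_nonneg_of_nonpos (Nat.cast_nonneg _) (not_lt.1 h5))
    linarith
  -- no common zeros
  obtain ⟨m', hm'⟩ := pow_mem (a := a) f hcz i0
  obtain ⟨c', hc', hcm'⟩ := span_eval P hyr h1 (t := aeval y (f 0)) (fun H hH => by
    obtain ⟨i, rfl⟩ := hH
    refine ⟨aeval y (f i) / aeval y (f 0), ?_, by rw [div_mul_cancel₀ _ (hfy 0)]⟩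
    right
    rw [P.ord_div (hfy i) (hfy 0), hft, hft, sub_self]) hm'
  have hy0 : y i0 = 1 := by
    rw [hy]
    exact div_self h0
  rw [map_pow, aeval_X, hy0, one_pow] at hcm'
  have hc0' : c' ≠ 0 := by
    rintro rfl
    rw [zero_mul] at hcm'
    exact one_ne_zero hcm'
  have h7 := congrArg P.ord hcm'
  rw [P.ord_one, P.ord_mul hc0' (hfy 0), hft] at h7
  have h8 := (P.reg_iff hc0').1 hc'
  linarith

end Pool.Agent.Q161.PD
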