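import Pool.Agent.Q161.PD.Cur

/-!
Good circles for curves on the exterior of the unit disc.
-/

set_option autoImplicit false

namespace Pool.Agent.Q161.PD

open Filter Metric Set Topology Pool.Agent.W603.BP Pool.Agent.H159R3.NV
open Pool.Agent.Y192.OG (Curve Rad Lau lev)
open Pool.Agent.Q72.TR (Tm T2_le' eval_bound good_family Tm_int norm_le_coord exists_coord)
open Pool.Agent.Q72.SH (coord_diff eval_diff)
open Pool.Agent.Q72.NW (exists_num)

variable {n : ℕ}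

/-- the characteristic of a pair, with a bound on one circle only -/
theorem T2_le_circ {f : ℂ → Fin (n + 1) → ℂ} (hf : Differentiable ℂ f) (h0 : ∀ z, f z ≠ 0)
    {g h : ℂ → ℂ} (hg : Differentiable ℂ g) (hh : Differentiable ℂ h) (hg0 : ∃ y, g y ≠ 0)
    {c : ℝ} (hc : 0 < c) {K : ℕ} {r : ℝ} (hr : 0 < r) (h1 : ∀ z, ‖z‖ = r → ‖g z‖ ≤ c * ‖f z‖ ^ K)
    (h2 : ∀ z, ‖z‖ = r → ‖h z‖ ≤ c * ‖f z‖ ^ K) : T2 g h r ≤ K * Tm f r + Real.log c := by
  have i1 : CircleIntegrable (fun z => Real.log ‖g z‖) 0 r := ci_log (mero_of_diff hg) r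
  have i2 : CircleIntegrable (fun z => Real.posLog ‖h z / g z‖) 0 r :=
    ci_posLog (quot_mero hg hh) r
  have i3 : CircleIntegrable (fun z => (K : ℝ) * Real.log ‖f z‖) 0 r :=
    (Tm_int hf h0 r).const_fun_smul (a := (K : ℝ))
  have i4 : CircleIntegrable (fun z => (K : ℝ) * Real.log ‖f z‖ + Real.log c) 0 r :=
    i3.add (circleIntegrable_const _ _ _)
  have e1 : K * Tm f r + Real.log c =
      Real.circleAverage (fun z => (K : ℝ) * Real.log ‖f z‖ + Real.log c) 0 r := by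
    rw [Real.circleAverage_fun_add i3 (circleIntegrable_const _ _ _), Real.circleAverage_const]
    congr 1
    unfold Tm
    rw [← smul_eq_mul, ← Real.circleAverage_fun_smul]
    rfl
  have e2 : T2 g h r = Real.circleAverage (fun z => Real.log ‖g z‖ + Real.posLog ‖h z / g z‖)
      0 r := by
    rw [Real.circleAverage_fun_add i1 i2]
    rfl
  rw [e1, e2]
  obtain ⟨y, hy⟩ := hg0
  apply avg_le_cod (i1.add i2) i4 hr.ne'
  filter_upwards [ne_cod hg hy r, Filter.self_mem_codiscreteWithin (sphere (0 : ℂ) |r|)] with z hz hzs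
  have hzr : ‖z‖ = r := by
    rw [mem_sphere_zero_iff_norm, abs_of_pos hr] at hzs
    exact hzs
  have hgz : 0 < ‖g z‖ := norm_pos_iff.2 hz
  have hfz : 0 < ‖f z‖ := norm_pos_iff.2 (h0 z)
  have h3 : ∀ u : ℝ, 0 < u → u ≤ c * ‖f z‖ ^ K → Real.log u ≤ K * Real.log ‖f z‖ + Real.log c := by
    intro u hu hu2
    have := Real.log_le_log hu hu2
    rw [Real.log_mul hc.ne' (by positivity), Real.log_pow] at this
    linarith
  change Real.log ‖g z‖ + Real.posLog ‖h z / g z‖ ≤ K * Real.log ‖f z‖ + Real.log c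
  rw [Real.posLog_apply]
  rcases max_cases 0 (Real.log ‖h z / g z‖) with ⟨h4, -⟩ | ⟨h4, h5⟩
  · rw [h4, add_zero]
    exact h3 _ hgz (h1 z hzr)
  · rw [h4]
    have hhz : h z ≠ 0 := by
      intro h6
      rw [h6, zero_div, norm_zero, Real.log_zero] at h5
      exact lt_irrefl _ h5
    rw [norm_div, Real.log_div (norm_ne_zero_iff.2 hhz) hgz.ne']
    have := h3 _ (norm_pos_iff.2 hhz) (h2 z hzr)
    linarith

theorem norm_g_le {g G H : ℂ → Fin (n + 1) → ℂ} (hd : Dat g G H) {C : ℝ}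
    (hC : ∀ i z, 4 ≤ ‖z‖ → |Real.log ‖H z i‖| ≤ C * (1 + Real.log ‖z‖)) {z : ℂ} (hz : 4 ≤ ‖z‖) :
    ‖g z‖ ≤ Real.exp (C * (1 + Real.log ‖z‖)) * ‖G z‖ := by
  obtain ⟨l, hl⟩ := exists_coord (g z)
  rw [hl]
  have h1 : g z l = H z l * G z l := (hd.cp l).eq3 (by linarith)
  have h2 : H z l ≠ 0 := (hd.cp l).H3 (by linarith)
  rw [h1, norm_mul]
  refine mul_le_mul ?_ (norm_le_coord z l) (norm_nonneg _) (Real.exp_pos _).le
  rw [← Real.log_le_iff_le_exp (norm_pos_iff.2 h2)]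
  exact (le_abs_self _).trans (hC l z hz)

theorem norm_G_le {g G H : ℂ → Fin (n + 1) → ℂ} (hd : Dat g G H) {C : ℝ}
    (hC : ∀ i z, 4 ≤ ‖z‖ → |Real.log ‖H z i‖| ≤ C * (1 + Real.log ‖z‖)) {z : ℂ} (hz : 4 ≤ ‖z‖) :
    ‖G z‖ ≤ Real.exp (C * (1 + Real.log ‖z‖)) * ‖g z‖ := by
  obtain ⟨l, hl⟩ := exists_coord (G z)
  rw [hl]
  have h1 : g z l = H z l * G z l := (hd.cp l).eq3 (by linarith)
  have h2 : H z l ≠ 0 := (hd.cp l).H3 (by linarith)
  have h3 : ‖G z l‖ = ‖H z l‖⁻¹ * ‖g z l‖ := by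
    rw [h1, norm_mul, inv_mul_cancel_left₀ (norm_ne_zero_iff.2 h2)]
  rw [h3]
  refine mul_le_mul ?_ (norm_le_coord z l) (norm_nonneg _) (Real.exp_pos _).le
  rw [← Real.log_le_iff_le_exp (inv_pos.2 (norm_pos_iff.2 h2)), Real.log_inv]
  exact (neg_le_abs _).trans (hC l z hz)

variable {g G H : ℂ → Fin (n + 1) → ℂ} (hd : Dat g G H)

theorem circ (F : Lau n) (hF : (cur hd).ev F ≠ 0) : ∃ B c' : ℝ, 1 ≤ B ∧ 1 ≤ c' ∧
    ∀ r δ M : ℝ, 5 ≤ r → 0 < δ → δ ≤ 1 → Tm G (r + 4 * δ) ≤ M → 1 + Real.log (r + 4 * δ) ≤ M →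
      ∃ s ε : ℝ, r ≤ s ∧ s ≤ r + δ ∧ 0 < ε ∧ ε ≤ 1 ∧ 1 / ε ≤ c' * (r ^ 3 * M ^ 2 / δ ^ 4) ∧
      (∀ z, ‖z‖ = s → ∀ y ∈ closedBall z ε, y ∈ (cur hd).U) ∧
      (∀ z, ‖z‖ = s → ∀ i j, ∀ y ∈ closedBall z ε, ‖(cur hd).X j y /
        (cur hd).X i y‖ ≤ B * ‖(cur hd).X j z / (cur hd).X i z‖) ∧
      (∀ z, ‖z‖ = s → ∀ y ∈ closedBall z ε, ‖(cur hd).val ((cur hd).ev F) y‖ ≤
        B * ‖(cur hd).val ((cur hd).ev F) z‖) := by
  classical
  obtain ⟨k, P, hk, hP, hval⟩ := exists_num F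
  obtain ⟨c, hc⟩ : ∃ c, c = cur hd := ⟨_, rfl⟩
  rw [← hc] at hF ⊢
  have hX : ∀ i z, c.X i z = g z i := fun i z => by rw [hc]; rfl
  have hr0 : c.r0 = 3 := by rw [hc]; rfl
  have hU : ∀ z, 3 < ‖z‖ → (∀ i, g z i ≠ 0) → z ∈ c.U := fun z h1 h2 => by
    rw [hc]
    exact ⟨h1, h2⟩
  obtain ⟨D, hD⟩ : ∃ D, D = k + n * k := ⟨_, rfl⟩
  have hD1 : 1 ≤ D := by rw [hD]; omega
  rw [← hD] at hP
  have hval' : ∀ z ∈ c.U, c.val (c.ev F) z = MvPolynomial.eval (g z) P / g z 0 ^ D *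
      ∏ i : Fin n, (g z 0 / g z i.succ) ^ k := by
    intro z hz
    rw [hval c z hz, ← hD]
    simp only [hX]
  -- a point where nothing vanishes
  obtain ⟨p, hp, hpP⟩ : ∃ p ∈ c.U, MvPolynomial.eval (g p) P ≠ 0 := by
    by_contra hcon
    push Not at hcon
    apply hF
    apply c.val_inj
    intro z hz
    rw [hval' z hz, hcon z hz, zero_div, zero_mul, Pool.Agent.Y274.OG.val_zero']
  have hpX : ∀ i, g p i ≠ 0 := fun i => by rw [← hX]; exact hp.2 i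
  -- the companion of the numerator
  have hPan : AnalyticOnNhd ℂ (fun z => MvPolynomial.eval (g z) P) (Ext 1) := eval_an hd.an P
  have hp3 : p ∈ Ext 1 := by
    have h1 : c.r0 < ‖p‖ := hp.1
    show 1 < ‖p‖
    rw [hr0] at h1
    linarith
  obtain ⟨V, HP, hcp⟩ := exists_cpn hPan ⟨p, hp3, hpP⟩
  obtain ⟨C1, hC10, hC1⟩ := hd.lb
  obtain ⟨C2, hC20, hC2⟩ := hcp.lb
  obtain ⟨B1, hB1, hosc1⟩ := hd.osc
  obtain ⟨B2, hB2, hosc2⟩ := hcp.osc
  -- the family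
  let v : Fin (n + 2) → ℂ → ℂ := Fin.cons V
    (fun (i : Fin (n + 1)) z => G z i * G z 0 ^ (D - 1))
  have hv0 : ∀ z, v 0 z = V z := fun z => rfl
  have hvs : ∀ (i : Fin (n + 1)) z, v i.succ z = G z i * G z 0 ^ (D - 1) := fun i z => rfl
  have hvd : ∀ j, Differentiable ℂ (v j) := by
    intro j
    refine Fin.cases ?_ (fun i => ?_) j
    · exact hcp.vd
    · have : v i.succ = fun z => G z i * G z 0 ^ (D - 1) := funext fun z => hvs i z
      rw [this]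
      exact (coord_diff hd.diff i).mul ((coord_diff hd.diff 0).pow _)
  have hvne : ∀ j, ∃ y, v j y ≠ 0 := by
    intro j
    refine ⟨0, ?_⟩
    refine Fin.cases ?_ (fun i => ?_) j
    · rw [hv0]
      exact hcp.V2 (by simp)
    · rw [hvs]
      exact mul_ne_zero ((hd.cp i).V2 (by simp)) (pow_ne_zero _ ((hd.cp 0).V2 (by simp)))
  obtain ⟨c1, hc1, hc1b⟩ := eval_bound hP
  obtain ⟨A, hA⟩ : ∃ A : ℝ, A = D * C1 + C2 := ⟨_, rfl⟩
  have hA0 : 0 ≤ A := by rw [hA]; positivity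
  have hvb : ∀ j z, 4 ≤ ‖z‖ →
      ‖v j z‖ ≤ (c1 * Real.exp (A * (1 + Real.log ‖z‖))) * ‖G z‖ ^ D := by
    intro j z hz
    have hlz : 0 ≤ Real.log ‖z‖ := Real.log_nonneg (by linarith)
    refine Fin.cases ?_ (fun i => ?_) j
    · rw [hv0]
      have h1 : MvPolynomial.eval (g z) P = HP z * V z := hcp.eq3 (by linarith)
      have h2 : HP z ≠ 0 := hcp.H3 (by linarith)
      have h3 : ‖V z‖ = ‖HP z‖⁻¹ * ‖MvPolynomial.eval (g z) P‖ := by
        rw [h1, norm_mul, inv_mul_cancel_left₀ (norm_ne_zero_iff.2 h2)]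
      have h4 : ‖HP z‖⁻¹ ≤ Real.exp (C2 * (1 + Real.log ‖z‖)) := by
        rw [← Real.log_le_iff_le_exp (inv_pos.2 (norm_pos_iff.2 h2)), Real.log_inv]
        exact (neg_le_abs _).trans (hC2 z hz)
      have h5 : ‖MvPolynomial.eval (g z) P‖ ≤
          c1 * (Real.exp (D * (C1 * (1 + Real.log ‖z‖))) * ‖G z‖ ^ D) := by
        refine (hc1b _).trans (mul_le_mul_of_nonneg_left ?_ (by linarith))
        calc ‖g z‖ ^ D ≤ (Real.exp (C1 * (1 + Real.log ‖z‖)) * ‖G z‖) ^ D :=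
              pow_le_pow_left₀ (norm_nonneg _) (norm_g_le hd hC1 hz) _
          _ = _ := by rw [mul_pow, Real.exp_nat_mul]
      rw [h3]
      calc ‖HP z‖⁻¹ * ‖MvPolynomial.eval (g z) P‖ ≤ Real.exp (C2 * (1 + Real.log ‖z‖)) *
            (c1 * (Real.exp (D * (C1 * (1 + Real.log ‖z‖))) * ‖G z‖ ^ D)) :=
            mul_le_mul h4 h5 (norm_nonneg _) (Real.exp_pos _).le
        _ = (c1 * (Real.exp (C2 * (1 + Real.log ‖z‖)) *
            Real.exp (D * (C1 * (1 + Real.log ‖z‖))))) * ‖G z‖ ^ D := by ring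
        _ = _ := by
            rw [← Real.exp_add, hA]
            congr 3
            ring
    · rw [hvs, norm_mul, norm_pow]
      have h1 : ‖G z‖ ^ D = ‖G z‖ * ‖G z‖ ^ (D - 1) := by
        rw [← pow_succ', Nat.sub_add_cancel hD1]
      rw [h1]
      have h2 : ‖G z i‖ * ‖G z 0‖ ^ (D - 1) ≤ ‖G z‖ * ‖G z‖ ^ (D - 1) :=
        mul_le_mul (norm_le_coord z i) (pow_le_pow_left₀ (norm_nonneg _) (norm_le_coord z 0) _)
          (by positivity) (norm_nonneg _)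
      refine h2.trans (le_mul_of_one_le_left (by positivity) ?_)
      exact one_le_mul_of_one_le_of_one_le hc1 (Real.one_le_exp (by positivity))
  obtain ⟨Λ, B0, hΛ, hB0, hgood⟩ := good_family v hvd hvne
  set κ : ℝ := ((n + 1 : ℕ) + 1) * (D + A + Real.log c1 + Λ) + 1 with hκ
  have hlc : 0 ≤ Real.log c1 := Real.log_nonneg hc1
  have hκ1 : 1 ≤ κ := by
    have : 0 ≤ (((n + 1 : ℕ) : ℝ) + 1) * (D + A + Real.log c1 + Λ) := by positivity
    linarith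
  obtain ⟨Bq, hBq⟩ : ∃ Bq, Bq = B1 ^ 2 * B0 := ⟨_, rfl⟩
  obtain ⟨Bt, hBt⟩ : ∃ Bt, Bt = B2 * B1 ^ D * B0 := ⟨_, rfl⟩
  have hBq1 : 1 ≤ Bq := by
    rw [hBq]
    exact one_le_mul_of_one_le_of_one_le (one_le_pow₀ hB1) hB0
  have hBt1 : 1 ≤ Bt := by
    rw [hBt]
    exact one_le_mul_of_one_le_of_one_le (one_le_mul_of_one_le_of_one_le hB2 (one_le_pow₀ hB1)) hB0
  have hBB : Bq ≤ Bt * Bq ^ (1 + n * k) :=
    (le_self_pow₀ hBq1 (by omega)).trans (le_mul_of_one_le_left (by positivity) hBt1)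
  refine ⟨Bt * Bq ^ (1 + n * k), 500000 * κ ^ 2,
    one_le_mul_of_one_le_of_one_le hBt1 (one_le_pow₀ hBq1), ?_, ?_⟩
  · nlinarith [one_le_pow₀ hκ1 (n := 2)]
  intro r δ M hr hδ hδ1 hM hM1
  have hR0 : 0 < r + 4 * δ := by linarith
  have hlR : 0 ≤ Real.log (r + 4 * δ) := Real.log_nonneg (by linarith)
  have hM11 : 1 ≤ M := by linarith
  have hM' : ∀ i, T2 (v 0) (v i) (r + 4 * δ) ≤ D * M + A * M + Real.log c1 := by
    intro i
    have h1 := T2_le_circ hd.diff hd.G0 (hvd 0) (hvd i) (hvne 0)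
      (c := c1 * Real.exp (A * (1 + Real.log (r + 4 * δ)))) (by positivity) (K := D) hR0
      (fun z hz => by have := hvb 0 z (by rw [hz]; linarith); rwa [hz] at this)
      (fun z hz => by have := hvb i z (by rw [hz]; linarith); rwa [hz] at this)
    rw [Real.log_mul (by linarith) (Real.exp_pos _).ne', Real.log_exp] at h1
    have h2 : (D : ℝ) * Tm G (r + 4 * δ) ≤ D * M :=
      mul_le_mul_of_nonneg_left hM (Nat.cast_nonneg _)
    have h3 : A * (1 + Real.log (r + 4 * δ)) ≤ A * M := mul_le_mul_of_nonneg_left hM1 hA0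
    linarith
  obtain ⟨s, ε, hrs, hsδ, hε, hε1, hεX, h0', hb'⟩ :=
    hgood r δ _ (by linarith) hδ hδ1 hM' (by positivity)
  have hyn : ∀ z : ℂ, ‖z‖ = s → ∀ y ∈ closedBall z ε, ‖y - z‖ ≤ 1 ∧ 4 ≤ ‖y‖ := by
    intro z hz y hy
    rw [mem_closedBall, dist_eq_norm] at hy
    have h3 : ‖z‖ - ‖y - z‖ ≤ ‖y‖ := by
      have := norm_sub_norm_le z (z - y)
      rw [sub_sub_cancel, norm_sub_rev z y] at this
      exact this
    rw [hz] at h3
    constructor <;> linarith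
  have hsU : ∀ z, ‖z‖ = s → ∀ y ∈ closedBall z ε, (∀ i, G y i ≠ 0) ∧ (∀ i, g y i ≠ 0) ∧
      V y ≠ 0 ∧ y ∈ c.U := by
    intro z hz y hy
    obtain ⟨-, h4⟩ := hyn z hz y hy
    have h1 : V y ≠ 0 := h0' z hz 0 y hy
    have h2 : ∀ i, G y i ≠ 0 := fun i => by
      have := h0' z hz i.succ y hy
      rw [hvs] at this
      exact left_ne_zero_of_mul this
    have h3 : ∀ i, g y i ≠ 0 := fun i h => h2 i ((hd.zero_iff i (by linarith)).1 h)
    exact ⟨h2, h3, h1, hU y (by linarith) h3⟩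
  have hself : ∀ z : ℂ, z ∈ closedBall z ε := fun z => mem_closedBall_self hε.le
  have hoscG : ∀ z, ‖z‖ = s → ∀ i j, ∀ y ∈ closedBall z ε,
      ‖G y j / G y i‖ ≤ B0 * ‖G z j / G z i‖ := by
    intro z hz i j y hy
    have h1 := hb' z hz i.succ j.succ y hy
    obtain ⟨h2, -, -, -⟩ := hsU z hz y hy
    obtain ⟨h3, -, -, -⟩ := hsU z hz z (hself z)
    rw [hvs, hvs, hvs, hvs, mul_div_mul_right _ _ (pow_ne_zero _ (h2 0)),
      mul_div_mul_right _ _ (pow_ne_zero _ (h3 0))] at h1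
    exact h1
  have hz4 : ∀ z : ℂ, ‖z‖ = s → 5 ≤ ‖z‖ := fun z hz => by rw [hz]; linarith
  -- oscillation of the units
  have hoscH : ∀ z, ‖z‖ = s → ∀ i j, ∀ y ∈ closedBall z ε,
      ‖H y j / H y i‖ ≤ B1 ^ 2 * ‖H z j / H z i‖ := by
    intro z hz i j y hy
    obtain ⟨h1, h2⟩ := hyn z hz y hy
    have h3 := (hosc1 j z y (hz4 z hz) h1).1
    have h4 := (hosc1 i z y (hz4 z hz) h1).2
    have h5 : 0 < ‖H y i‖ := norm_pos_iff.2 ((hd.cp i).H3 (by linarith))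
    have h6 : 0 < ‖H z i‖ := norm_pos_iff.2 ((hd.cp i).H3 (by linarith [hz4 z hz]))
    rw [norm_div, norm_div, div_le_iff₀ h5]
    have h7 : B1 ^ 2 * (‖H z j‖ / ‖H z i‖) * ‖H y i‖ =
        (B1 * ‖H z j‖) * ((B1 * ‖H y i‖) / ‖H z i‖) := by
      field_simp
    rw [h7]
    refine h3.trans (le_mul_of_one_le_right (by positivity) ?_)
    rw [one_le_div h6]
    exact h4
  have hosc : ∀ z, ‖z‖ = s → ∀ i j, ∀ y ∈ closedBall z ε,
      ‖g y j / g y i‖ ≤ Bq * ‖g z j / g z i‖ := by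
    intro z hz i j y hy
    obtain ⟨h1, h2⟩ := hyn z hz y hy
    have e : ∀ w : ℂ, 4 ≤ ‖w‖ → ‖g w j / g w i‖ = ‖H w j / H w i‖ * ‖G w j / G w i‖ := by
      intro w hw
      have e1 : g w j = H w j * G w j := (hd.cp j).eq3 (by linarith)
      have e2 : g w i = H w i * G w i := (hd.cp i).eq3 (by linarith)
      rw [e1, e2, mul_div_mul_comm, norm_mul]
    rw [e y h2, e z (by linarith [hz4 z hz]), hBq]
    calc ‖H y j / H y i‖ * ‖G y j / G y i‖ ≤ (B1 ^ 2 * ‖H z j / H z i‖) * (B0 * ‖G z j / G z i‖) :=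
          mul_le_mul (hoscH z hz i j y hy) (hoscG z hz i j y hy) (norm_nonneg _) (by positivity)
      _ = _ := by ring
  refine ⟨s, ε, hrs, hsδ, hε, hε1, hεX.trans ?_, fun z hz y hy => (hsU z hz y hy).2.2.2, ?_, ?_⟩
  · have h1 : (r + 4 * δ) ^ 3 ≤ (5 * r) ^ 3 := by
      apply pow_le_pow_left₀ hR0.le
      linarith
    have h2 : ((n + 1 : ℕ) + 1) * (D * M + A * M + Real.log c1 + Λ) + 1 ≤ κ * M := by
      rw [hκ]
      have e1 : Real.log c1 ≤ Real.log c1 * M := le_mul_of_one_le_right hlc hM11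
      have e2 : Λ ≤ Λ * M := le_mul_of_one_le_right hΛ hM11
      have e3 : (((n + 1 : ℕ) : ℝ) + 1) * (D * M + A * M + Real.log c1 + Λ) ≤
          (((n + 1 : ℕ) : ℝ) + 1) * (D * M + A * M + Real.log c1 * M + Λ * M) := by
        apply mul_le_mul_of_nonneg_left _ (by positivity)
        linarith
      nlinarith
    have h3 : (((n + 1 : ℕ) + 1) * (D * M + A * M + Real.log c1 + Λ) + 1) ^ 2 ≤ (κ * M) ^ 2 :=
      pow_le_pow_left₀ (by positivity) h2 2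
    calc 4 * (1000 * (r + 4 * δ) ^ 3 *
          (((n + 1 : ℕ) + 1) * (D * M + A * M + Real.log c1 + Λ) + 1) ^ 2 / δ ^ 4)
        ≤ 4 * (1000 * (5 * r) ^ 3 * (κ * M) ^ 2 / δ ^ 4) := by gcongr
      _ = 500000 * κ ^ 2 * (r ^ 3 * M ^ 2 / δ ^ 4) := by ring
  · intro z hz i j y hy
    rw [hX, hX, hX, hX]
    exact (hosc z hz i j y hy).trans (mul_le_mul_of_nonneg_right hBB (norm_nonneg _))
  · intro z hz y hy
    obtain ⟨hG2, hg2, hV2, hyU⟩ := hsU z hz y hy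
    obtain ⟨hG3, hg3, hV3, hzU⟩ := hsU z hz z (hself z)
    obtain ⟨hyz, hy4⟩ := hyn z hz y hy
    rw [hval' y hyU, hval' z hzU, norm_mul, norm_mul, norm_prod, norm_prod]
    have hpow : ∀ w, G w 0 * G w 0 ^ (D - 1) = G w 0 ^ D := fun w => by
      rw [← pow_succ', Nat.sub_add_cancel hD1]
    have h4 : ‖V y / G y 0 ^ D‖ ≤ B0 * ‖V z / G z 0 ^ D‖ := by
      have h5 := hb' z hz (Fin.succ 0) 0 y hy
      rw [hvs, hvs, hv0, hv0, hpow, hpow] at h5
      exact h5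
    have h4' : ‖HP y / H y 0 ^ D‖ ≤ B2 * B1 ^ D * ‖HP z / H z 0 ^ D‖ := by
      have e1 := (hosc2 z y (hz4 z hz) hyz).1
      have e2 := (hosc1 0 z y (hz4 z hz) hyz).2
      have e3 : 0 < ‖H y 0‖ := norm_pos_iff.2 ((hd.cp 0).H3 (by linarith))
      have e4 : 0 < ‖H z 0‖ := norm_pos_iff.2 ((hd.cp 0).H3 (by linarith [hz4 z hz]))
      rw [norm_div, norm_div, norm_pow, norm_pow, div_le_iff₀ (by positivity)]
      have e5 : B2 * B1 ^ D * (‖HP z‖ / ‖H z 0‖ ^ D) * ‖H y 0‖ ^ D =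
          (B2 * ‖HP z‖) * ((B1 * ‖H y 0‖) ^ D / ‖H z 0‖ ^ D) := by
        rw [mul_pow]
        ring
      rw [e5]
      refine e1.trans (le_mul_of_one_le_right (by positivity) ?_)
      rw [one_le_div (by positivity)]
      exact pow_le_pow_left₀ e4.le e2 D
    have h6 : ‖MvPolynomial.eval (g y) P / g y 0 ^ D‖ ≤
        Bt * ‖MvPolynomial.eval (g z) P / g z 0 ^ D‖ := by
      have e : ∀ w : ℂ, 4 ≤ ‖w‖ → ‖MvPolynomial.eval (g w) P / g w 0 ^ D‖ =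
          ‖HP w / H w 0 ^ D‖ * ‖V w / G w 0 ^ D‖ := by
        intro w hw
        have e1 : MvPolynomial.eval (g w) P = HP w * V w := hcp.eq3 (by linarith)
        have e2 : g w 0 = H w 0 * G w 0 := (hd.cp 0).eq3 (by linarith)
        rw [e1, e2, mul_pow, mul_div_mul_comm, norm_mul]
      rw [e y hy4, e z (by linarith [hz4 z hz]), hBt]
      calc ‖HP y / H y 0 ^ D‖ * ‖V y / G y 0 ^ D‖ ≤
            (B2 * B1 ^ D * ‖HP z / H z 0 ^ D‖) * (B0 * ‖V z / G z 0 ^ D‖) :=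
            mul_le_mul h4' h4 (norm_nonneg _) (by positivity)
        _ = _ := by ring
    have h5 : ∏ i : Fin n, ‖(g y 0 / g y i.succ) ^ k‖ ≤
        ∏ i : Fin n, (Bq ^ k * ‖(g z 0 / g z i.succ) ^ k‖) := by
      refine Finset.prod_le_prod (fun i _ => norm_nonneg _) fun i _ => ?_
      rw [norm_pow, norm_pow, ← mul_pow]
      exact pow_le_pow_left₀ (norm_nonneg _) (hosc z hz i.succ 0 y hy) k
    rw [Finset.prod_mul_distrib, Finset.prod_const, Finset.card_univ, Fintype.card_fin,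
      ← pow_mul, mul_comm k n] at h5
    calc ‖MvPolynomial.eval (g y) P / g y 0 ^ D‖ * ∏ i : Fin n, ‖(g y 0 / g y i.succ) ^ k‖
        ≤ (Bt * ‖MvPolynomial.eval (g z) P / g z 0 ^ D‖) *
          (Bq ^ (n * k) * ∏ i : Fin n, ‖(g z 0 / g z i.succ) ^ k‖) :=
          mul_le_mul h6 h5 (Finset.prod_nonneg fun i _ => norm_nonneg _) (by positivity)
      _ = (Bt * Bq ^ (n * k)) * (‖MvPolynomial.eval (g z) P / g z 0 ^ D‖ *
          ∏ i : Fin n, ‖(g z 0 / g z i.succ) ^ k‖) := by ring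
      _ ≤ _ := by
          refine mul_le_mul_of_nonneg_right ?_ (by
            have : 0 ≤ ∏ i : Fin n, ‖(g z 0 / g z i.succ) ^ k‖ :=
              Finset.prod_nonneg fun i _ => norm_nonneg _
            positivity)
          exact mul_le_mul_of_nonneg_left (pow_le_pow_right₀ hBq1 (by omega)) (by linarith)

end Pool.Agent.Q161.PD
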