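import Pool.Agent.W603.BP.Main

/-!
Entire companions of functions which are holomorphic outside of a disc.
-/

set_option autoImplicit false

namespace Pool.Agent.Q161.PD

open Filter Metric Set Topology Pool.Agent.W603.BP Pool.Agent.H159R3.NV

/-- an analytic function that is not identically zero has no zeros in some annulus -/
theorem annulus' {r0 : ℝ} (hr0 : 0 < r0) {F : ℂ → ℂ} (hF : AnalyticOnNhd ℂ F (Ext r0))
    (hne : ∃ z ∈ Ext r0, F z ≠ 0) :
    ∃ r1 r2, r0 + 1 < r1 ∧ r1 < r2 ∧ r2 < r0 + 2 ∧ ∀ z, r1 < ‖z‖ → ‖z‖ < r2 → F z ≠ 0 := by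
  classical
  have hcod := hF.eqOn_zero_or_eventually_ne_zero_of_preconnected (Ext_preconn hr0)
  have hcod' : ∀ z ∈ Ext r0, ∀ᶠ w in 𝓝 z, w = z ∨ F w ≠ 0 := by
    intro z hz
    rcases hcod with h | h
    · obtain ⟨w, hw, hw0⟩ := hne
      exact absurd (h hw) hw0
    · have h2 := (mem_codiscreteWithin_iff_forall_mem_nhdsNE.1 h) z hz
      have h3 : ∀ᶠ w in 𝓝[≠] z, w ∈ {w | F w ≠ 0} ∪ (Ext r0)ᶜ := h2
      rw [eventually_nhdsWithin_iff] at h3
      filter_upwards [h3, (Ext_open r0).mem_nhds hz] with w hw hw2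
      by_cases hwz : w = z
      · exact Or.inl hwz
      · right
        rcases hw hwz with h4 | h4
        · exact h4
        · exact absurd hw2 h4
  set K : Set ℂ := {z : ℂ | r0 + 1 ≤ ‖z‖ ∧ ‖z‖ ≤ r0 + 2} with hK
  have hKc : IsCompact K := by
    apply (isCompact_closedBall (0 : ℂ) (r0 + 2)).of_isClosed_subset
    · exact (isClosed_le continuous_const continuous_norm).inter
        (isClosed_le continuous_norm continuous_const)
    · intro z hz
      rw [mem_closedBall, dist_zero_right]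
      exact hz.2
  have hKE : ∀ z ∈ K, z ∈ Ext r0 := fun z hz => by
    have := hz.1
    change r0 < ‖z‖
    linarith
  obtain ⟨t, -, ht⟩ := hKc.elim_nhds_subcover (fun z => {w | w = z ∨ F w ≠ 0})
    (fun z hz => hcod' z (hKE z hz))
  have hzeros : ∀ z ∈ K, F z = 0 → z ∈ t := by
    intro z hz h0
    obtain ⟨x, hx, hzx⟩ := mem_iUnion₂.mp (ht hz)
    rcases hzx with h | h
    · rw [h]; exact hx
    · exact absurd h0 h
  set T : Finset ℝ := t.image (fun z => ‖z‖) with hT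
  have hTo : IsOpen ((T : Set ℝ)ᶜ) := (Finset.finite_toSet T).isClosed.isOpen_compl
  have hUo : IsOpen (Ioo (r0 + 1) (r0 + 2) ∩ (T : Set ℝ)ᶜ) := isOpen_Ioo.inter hTo
  have hUne : (Ioo (r0 + 1) (r0 + 2) ∩ (T : Set ℝ)ᶜ).Nonempty := by
    have h1 : (Ioo (r0 + 1) (r0 + 2)).Infinite := Ioo_infinite (by linarith)
    exact (h1.sdiff (Finset.finite_toSet T)).nonempty
  obtain ⟨s, hs⟩ := hUne
  obtain ⟨ε, hε, hball⟩ := Metric.isOpen_iff.mp hUo s hs
  refine ⟨s - ε / 2, s + ε / 2, ?_, by linarith, ?_, ?_⟩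
  · have h1 : s - ε / 2 ∈ ball s ε := by
      rw [mem_ball, Real.dist_eq]
      have : s - ε / 2 - s = -(ε / 2) := by ring
      rw [this, abs_neg, abs_of_pos (by linarith)]
      linarith
    exact (hball h1).1.1
  · have h1 : s + ε / 2 ∈ ball s ε := by
      rw [mem_ball, Real.dist_eq]
      have : s + ε / 2 - s = ε / 2 := by ring
      rw [this, abs_of_pos (by linarith)]
      linarith
    exact (hball h1).1.2
  · intro z h1 h2 h0
    have h3 : ‖z‖ ∈ ball s ε := by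
      rw [mem_ball, Real.dist_eq, abs_lt]
      constructor <;> linarith
    have h4 := hball h3
    have h5 : z ∈ K := ⟨h4.1.1.le, h4.1.2.le⟩
    have h6 := hzeros z h5 h0
    apply h4.2
    rw [hT, Finset.coe_image]
    exact ⟨z, h6, rfl⟩

/-- `F = H * V` in the exterior of a disc, where `V` is entire and `H` is a unit of moderate
growth -/
structure Cpn (F V H : ℂ → ℂ) : Prop where
  vd : Differentiable ℂ V
  hm : MeromorphicAt (fun w : ℂ => H w⁻¹) 0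
  ex : ∃ a, 2 < a ∧ a < 3 ∧ Tame a H ∧ (∀ z ∈ Ext a, F z = H z * V z) ∧ ∀ z, ‖z‖ ≤ a → V z ≠ 0

theorem exists_cpn {F : ℂ → ℂ} (hF : AnalyticOnNhd ℂ F (Ext 1)) (hne : ∃ z ∈ Ext 1, F z ≠ 0) :
    ∃ V H, Cpn F V H := by
  obtain ⟨r1, r2, h01, h12, h2, hfree⟩ := annulus' one_pos hF hne
  obtain ⟨a, h1a, ha2⟩ := exists_between h12
  obtain ⟨k, q, G, hq, hG, hG0, hFG⟩ := birkhoff (F := F) (by linarith : (0 : ℝ) ≤ r1) h1a ha2
    (hF.differentiableOn.mono (Ext_mono (by linarith))) hfree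
  exact ⟨G, fun z => z ^ k * Complex.exp (q z⁻¹), hG, unit_mero (by linarith) k hq, a, by linarith,
    by linarith, tame_of (by linarith) k hq, fun z hz => hFG z hz, hG0⟩

namespace Cpn

variable {F V H : ℂ → ℂ} (h : Cpn F V H)

include h

theorem eq3 {z : ℂ} (hz : 3 ≤ ‖z‖) : F z = H z * V z := by
  obtain ⟨a, h1, h2, h3, h4, h5⟩ := h.ex
  exact h4 z (lt_of_lt_of_le h2 hz)

theorem H3 {z : ℂ} (hz : 3 ≤ ‖z‖) : H z ≠ 0 := by
  obtain ⟨a, h1, h2, h3, h4, h5⟩ := h.ex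
  exact h3.ne z (lt_of_lt_of_le h2 hz)

theorem zero_iff {z : ℂ} (hz : 3 ≤ ‖z‖) : F z = 0 ↔ V z = 0 := by
  rw [h.eq3 hz, mul_eq_zero, or_iff_right (h.H3 hz)]

theorem V2 {z : ℂ} (hz : ‖z‖ ≤ 2) : V z ≠ 0 := by
  obtain ⟨a, h1, h2, h3, h4, h5⟩ := h.ex
  exact h5 z (by linarith)

theorem of_zero {z : ℂ} (hz : V z = 0) : 2 < ‖z‖ ∧ F z = 0 := by
  obtain ⟨a, h1, h2, h3, h4, h5⟩ := h.ex
  have h6 : a < ‖z‖ := by
    by_contra hc
    exact h5 z (not_lt.1 hc) hz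
  exact ⟨by linarith, by rw [h4 z h6, hz, mul_zero]⟩

theorem ord_eq {z : ℂ} (hz : V z = 0) : analyticOrderAt V z = analyticOrderAt F z := by
  obtain ⟨a, h1, h2, h3, h4, h5⟩ := h.ex
  have h6 : z ∈ Ext a := by
    by_contra hc
    exact h5 z (not_lt.1 hc) hz
  have h7 : F =ᶠ[𝓝 z] fun z => H z * V z := by
    filter_upwards [(Ext_open a).mem_nhds h6] with w hw
    exact h4 w hw
  rw [analyticOrderAt_congr h7]
  have h8 : analyticOrderAt (fun z => H z * V z) z = analyticOrderAt H z + analyticOrderAt V z :=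
    analyticOrderAt_mul (h3.an z h6) (h.vd.analyticAt z)
  rw [h8, (h3.an z h6).analyticOrderAt_eq_zero.2 (h3.ne z h6), zero_add]

theorem lb : ∃ C : ℝ, 0 ≤ C ∧ ∀ z, 4 ≤ ‖z‖ → |Real.log ‖H z‖| ≤ C * (1 + Real.log ‖z‖) := by
  obtain ⟨a, h1, h2, h3, h4, h5⟩ := h.ex
  obtain ⟨C, hC1, κ, hC⟩ := h3.bd
  have hl := Real.log_nonneg hC1
  refine ⟨Real.log C + κ, by positivity, fun z hz => ?_⟩
  obtain ⟨h6, h7⟩ := hC z (by linarith)
  have hz0 : 0 < ‖z‖ := by linarith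
  have hH : 0 < ‖H z‖ := norm_pos_iff.2 (h3.ne z (by show a < ‖z‖; linarith))
  have hC0 : 0 < C := by linarith
  have hlz : 0 ≤ Real.log ‖z‖ := Real.log_nonneg (by linarith)
  have hk : (0 : ℝ) ≤ κ := Nat.cast_nonneg κ
  have h8 := Real.log_le_log hH h6
  rw [Real.log_mul hC0.ne' (by positivity), Real.log_pow] at h8
  have h9 := Real.log_le_log one_pos h7
  rw [Real.log_one, Real.log_mul (by positivity) hH.ne', Real.log_mul hC0.ne' (by positivity),
    Real.log_pow] at h9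
  rw [abs_le]
  have e1 := mul_nonneg hl hlz
  have e2 := mul_nonneg hk hlz
  constructor <;> nlinarith

theorem osc : ∃ B : ℝ, 1 ≤ B ∧ ∀ z w : ℂ, 5 ≤ ‖z‖ → ‖w - z‖ ≤ 1 →
    ‖H w‖ ≤ B * ‖H z‖ ∧ ‖H z‖ ≤ B * ‖H w‖ := by
  obtain ⟨a, h1, h2, h3, h4, h5⟩ := h.ex
  obtain ⟨C, hC1, hC⟩ := h3.osc
  exact ⟨C, hC1, fun z w hz hw => hC z w (by linarith) hw⟩

end Cpn

theorem eval_an {N : ℕ} {w : ℂ → Fin (N + 1) → ℂ} {S : Set ℂ}
    (hw : ∀ l, AnalyticOnNhd ℂ (fun z => w z l) S) (P : MvPolynomial (Fin (N + 1)) ℂ) :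
    AnalyticOnNhd ℂ (fun z => MvPolynomial.eval (w z) P) S := by
  intro z hz
  have h1 : (fun z => MvPolynomial.eval (w z) P) =
      fun z => ∑ m ∈ P.support, P.coeff m * ∏ i, w z i ^ m i := by
    funext z
    rw [MvPolynomial.eval_eq']
  rw [h1]
  refine Finset.analyticAt_fun_sum _ fun m _ => ?_
  refine analyticAt_const.fun_mul ?_
  exact Finset.analyticAt_fun_prod _ fun i _ => (hw i z hz).fun_pow _

end Pool.Agent.Q161.PD
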