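import Pool.Agent.Q72.NW.Gen
import Pool.Agent.Q161.PD.Comp

/-!
Curves on the exterior of the unit disc with entire companions: comparison of the characteristic
functions.
-/

set_option autoImplicit false

namespace Pool.Agent.Q161.PD

open Filter Metric Set Topology Pool.Agent.W603.BP Pool.Agent.H159R3.NV
open Pool.Agent.Y192.OG (Curve Rad Lau a_ord a_ring dom a_cnt a_ht a_jen)
open Pool.Agent.Y141.OG (Pc ext_of_le)
open Pool.Agent.Q72.TR (Tm Nb Nb_eq wgt wgt_nonneg mem_zz zz zs Tm_int norm_le_coord exists_coord)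
open Pool.Agent.Q72.SH (coord_diff eval_diff)
open Pool.Agent.Q72.NW (eval_one mem_zs_one lam_eq del_eq ext_ne)

variable {n : ℕ}

/-- a holomorphic map on the exterior of the unit disc with entire companions of all coordinates -/
structure Dat (g G H : ℂ → Fin (n + 1) → ℂ) : Prop where
  an : ∀ i, AnalyticOnNhd ℂ (fun z => g z i) (Ext 1)
  nz : ∀ z ∈ Ext 1, g z ≠ 0
  cp : ∀ i, Cpn (fun z => g z i) (fun z => G z i) (fun z => H z i)

theorem exists_dat {g : ℂ → Fin (n + 1) → ℂ} (an : ∀ i, AnalyticOnNhd ℂ (fun z => g z i) (Ext 1))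
    (nz : ∀ z ∈ Ext 1, g z ≠ 0) (hne : ∀ i, ∃ z ∈ Ext 1, g z i ≠ 0) : ∃ G H, Dat g G H := by
  have h1 := fun i => exists_cpn (an i) (hne i)
  choose V H h2 using h1
  exact ⟨fun z i => V i z, fun z i => H i z, an, nz, h2⟩

namespace Dat

variable {g G H : ℂ → Fin (n + 1) → ℂ} (hd : Dat g G H)

include hd

theorem diff : Differentiable ℂ G := differentiable_pi.2 fun i => (hd.cp i).vd

theorem G0 (z : ℂ) : G z ≠ 0 := by
  intro h
  by_cases hz : ‖z‖ ≤ 2
  · exact (hd.cp 0).V2 hz (congrFun h 0)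
  · refine hd.nz z (by show 1 < ‖z‖; linarith [not_le.1 hz]) (funext fun i => ?_)
    exact ((hd.cp i).of_zero (congrFun h i)).2

theorem Gne (i : Fin (n + 1)) : ∃ y, G y i ≠ 0 := ⟨0, (hd.cp i).V2 (by simp)⟩

theorem zero_iff (i : Fin (n + 1)) {z : ℂ} (hz : 3 ≤ ‖z‖) : g z i = 0 ↔ G z i = 0 :=
  (hd.cp i).zero_iff hz

theorem ne3 (i : Fin (n + 1)) : ∃ z ∈ Ext 3, g z i ≠ 0 := by
  obtain ⟨z, hz, h⟩ := ext_ne hd.diff (hd.Gne i) 3
  exact ⟨z, hz, fun h1 => h ((hd.zero_iff i (le_of_lt hz)).1 h1)⟩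

theorem lb : ∃ C : ℝ, 0 ≤ C ∧ ∀ i z, 4 ≤ ‖z‖ → |Real.log ‖H z i‖| ≤ C * (1 + Real.log ‖z‖) := by
  have h1 := fun i => (hd.cp i).lb
  choose C hC0 hC using h1
  refine ⟨∑ i, C i, Finset.sum_nonneg fun i _ => hC0 i, fun i z hz => (hC i z hz).trans ?_⟩
  have hlz : 0 ≤ Real.log ‖z‖ := Real.log_nonneg (by linarith)
  exact mul_le_mul_of_nonneg_right (Finset.single_le_sum (f := C) (fun j _ => hC0 j)
    (Finset.mem_univ i)) (by linarith)

theorem osc : ∃ B : ℝ, 1 ≤ B ∧ ∀ i, ∀ z w : ℂ, 5 ≤ ‖z‖ → ‖w - z‖ ≤ 1 →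
    ‖H w i‖ ≤ B * ‖H z i‖ ∧ ‖H z i‖ ≤ B * ‖H w i‖ := by
  have h1 := fun i => (hd.cp i).osc
  choose B hB0 hB using h1
  have hle : ∀ i, B i ≤ ∑ j, B j := fun i => Finset.single_le_sum (f := B)
    (fun j _ => by linarith [hB0 j]) (Finset.mem_univ i)
  refine ⟨∑ i, B i, (hB0 0).trans (hle 0), fun i z w hz hw => ?_⟩
  obtain ⟨h2, h3⟩ := hB i z w hz hw
  exact ⟨h2.trans (mul_le_mul_of_nonneg_right (hle i) (norm_nonneg _)),
    h3.trans (mul_le_mul_of_nonneg_right (hle i) (norm_nonneg _))⟩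

end Dat

/-- the curve -/
noncomputable def cur {g G H : ℂ → Fin (n + 1) → ℂ} (hd : Dat g G H) : Curve n where
  r0 := 3
  X i z := g z i
  hr0 := by norm_num
  an i := (hd.an i).mono (Ext_mono (by norm_num))
  ncz z hz := Function.ne_iff.1 (hd.nz z (Ext_mono (by norm_num) hz))
  nz i := hd.ne3 i

variable {g G H : ℂ → Fin (n + 1) → ℂ} (hd : Dat g G H)

theorem cnt_le {R : ℝ} (hR : 1 ≤ R) :
    (cur hd).cnt (fun z => ((cur hd).bad z : ℤ)) R ≤ Nb G 1 R := by
  classical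
  have hQ : ∃ y, MvPolynomial.eval (G y) (1 : MvPolynomial (Fin (n + 1)) ℂ) ≠ 0 :=
    ⟨0, eval_one _⟩
  rw [Nb_eq hd.diff hQ (by linarith)]
  unfold Curve.cnt
  have h1 : ∀ z : ℂ, ((cur hd).bad z : ℤ) = if ∃ i, g z i = 0 then 1 else 0 := by
    intro z
    unfold Curve.bad
    rfl
  have h1' : ∀ z : ℂ, 4 ≤ ‖z‖ → ((∃ i, g z i = 0) ↔ ∃ i, G z i = 0) := fun z hz =>
    exists_congr fun i => hd.zero_iff i (by linarith)
  set T : Finset ℂ := (zz hd.diff hQ R).filter fun z => 4 ≤ ‖z‖ with hT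
  have h2 : ∑ᶠ z ∈ {z : ℂ | (cur hd).r0 + 1 ≤ ‖z‖ ∧ ‖z‖ ≤ R},
      (((cur hd).bad z : ℤ) : ℝ) * Real.log (R / ‖z‖) =
      ∑ z ∈ T, (((cur hd).bad z : ℤ) : ℝ) * Real.log (R / ‖z‖) := by
    apply finsum_mem_eq_sum_of_inter_support_eq
    ext z
    simp only [Set.mem_inter_iff, Set.mem_ofPred_eq, Function.mem_support, Finset.mem_coe, hT,
      Finset.mem_filter, mem_zz, mem_zs_one hd.Gne]
    have e1 : (cur hd).r0 + 1 = 4 := by
      show (3 : ℝ) + 1 = 4
      norm_num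
    rw [e1]
    constructor
    · rintro ⟨⟨a1, a2⟩, a3⟩
      refine ⟨⟨⟨a2, ?_⟩, a1⟩, a3⟩
      by_contra hcon
      apply a3
      rw [h1, if_neg (fun h => hcon ((h1' z a1).1 h))]
      simp
    · rintro ⟨⟨⟨a1, a2⟩, a3⟩, a4⟩
      exact ⟨⟨a3, a1⟩, a4⟩
  rw [h2]
  calc ∑ z ∈ T, (((cur hd).bad z : ℤ) : ℝ) * Real.log (R / ‖z‖)
      ≤ ∑ z ∈ T, wgt R z := by
        refine Finset.sum_le_sum fun z hz => ?_
        rw [hT, Finset.mem_filter, mem_zz] at hz
        have h3 : z ≠ 0 := by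
          rintro rfl
          have := hz.2
          rw [norm_zero] at this
          linarith
        have h4 : wgt R z = Real.log (R / ‖z‖) := by
          unfold wgt
          rw [if_neg h3, if_pos hz.1.1]
        have h5 : 0 ≤ Real.log (R / ‖z‖) := by
          rw [← h4]
          exact wgt_nonneg hR z
        rw [h4, h1]
        split_ifs
        · simp
        · simpa using h5
    _ ≤ ∑ z ∈ zz hd.diff hQ R, wgt R z :=
        Finset.sum_le_sum_of_subset_of_nonneg (Finset.filter_subset _ _)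
          fun z _ _ => wgt_nonneg hR z

include hd in
theorem log_cmp {C : ℝ} (hC : ∀ i z, 4 ≤ ‖z‖ → |Real.log ‖H z i‖| ≤ C * (1 + Real.log ‖z‖))
    {z : ℂ} (hz : 4 ≤ ‖z‖) (i : Fin (n + 1)) (h : g z i ≠ 0) :
    |Real.log ‖g z i‖ - Real.log ‖G z i‖| ≤ C * (1 + Real.log ‖z‖) := by
  have h1 : g z i = H z i * G z i := (hd.cp i).eq3 (by linarith)
  have h2 : H z i ≠ 0 := (hd.cp i).H3 (by linarith)
  have h3 : G z i ≠ 0 := fun h3 => h (by rw [h1, h3, mul_zero])
  rw [h1, norm_mul, Real.log_mul (norm_ne_zero_iff.2 h2) (norm_ne_zero_iff.2 h3), add_sub_cancel_right]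
  exact hC i z hz

theorem Tm_le_ch : ∃ C : ℝ, ∀ R : ℝ, 5 ≤ R → (∀ z, ‖z‖ = R → z ∈ (cur hd).U) →
    Tm G R ≤ (cur hd).ch R + C * (1 + Real.log R) := by
  classical
  obtain ⟨C1, hC10, hC1⟩ := hd.lb
  have hcmp := fun {z : ℂ} (hz : 4 ≤ ‖z‖) (i : Fin (n + 1)) => log_cmp hd hC1 hz i
  obtain ⟨c, hc⟩ : ∃ c, c = cur hd := ⟨_, rfl⟩
  rw [← hc]
  have hX : ∀ i z, c.X i z = g z i := fun i z => by rw [hc]; rfl
  have hr0 : c.r0 = 3 := by rw [hc]; rfl
  have hda : AnalyticOnNhd ℂ (c.X 0) (Ext c.r0) := c.an 0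
  -- the first coordinate
  obtain ⟨F0, hF0v, hF0e⟩ : ∃ F0 : c.Mr, (∀ z ∈ c.U, c.val F0 z = c.X 0 z) ∧
      ∀ z ∈ Ext c.r0, c.val F0 =ᶠ[𝓝[≠] z] c.X 0 :=
    ⟨c.mr (c.X 0) (fun z hz => (hda z hz).meromorphicAt)
      (fun z hz => hda z hz.1), fun z hz => c.val_mr _ _ _ hz,
      fun z hz => c.val_mr_ev _ _ _ hz⟩
  obtain ⟨p, hp⟩ : ∃ p, p ∈ c.U := by
    obtain ⟨q, hq⟩ := Ext_nonempty c.r0
    obtain ⟨p, hp⟩ := (c.U_punct hq).exists
    exact ⟨p, hp⟩
  have hF0 : F0 ≠ 0 := by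
    intro h
    have h1 := hF0v p hp
    rw [h, Pool.Agent.Y274.OG.val_zero'] at h1
    exact hp.2 0 h1.symm
  obtain ⟨C, hC⟩ := a_jen n c F0 hF0
  have hord : ∀ z ∈ Ext c.r0, (c.ord z F0).untop₀ = c.oX 0 z := by
    intro z hz
    unfold Curve.ord Curve.oX
    rw [meromorphicOrderAt_congr (hF0e z hz), (hda z hz).meromorphicOrderAt_eq]
    have h1 : analyticOrderAt (c.X 0) z ≠ ⊤ := by
      intro h2
      have h3 := analyticOrderAt_eq_top.mp h2
      have h5 := c.X_punct 0 hz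
      have h6 : ∀ᶠ w in 𝓝[≠] z, c.X 0 w = 0 := h3.filter_mono nhdsWithin_le_nhds
      obtain ⟨w, hw1, hw2⟩ := (h5.and h6).exists
      exact hw1 hw2
    obtain ⟨k, hk⟩ := ENat.ne_top_iff_exists.1 h1
    rw [← hk]
    simp
  refine ⟨C + C1, fun R hR hRU => ?_⟩
  have hRc : c.r0 + 2 ≤ R := by rw [hr0]; linarith
  have hR0 : (0 : ℝ) < R := by linarith
  have hlR : 0 ≤ Real.log R := Real.log_nonneg (by linarith)
  have hlamI : ∀ m, CircleIntegrable (fun z => c.lam z m) 0 R := ((a_ht n c).1 R hRc).2.2.2.2.2.1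
  have hsph : ∀ z ∈ sphere (0 : ℂ) |R|, ‖z‖ = R := fun z hz => by
    rw [mem_sphere_zero_iff_norm, abs_of_pos hR0] at hz
    exact hz
  -- the circle averages
  have i1 : CircleIntegrable (fun z => Real.log ‖c.X 0 z‖) 0 R := by
    apply ContinuousOn.circleIntegrable'
    apply ContinuousOn.log
    · apply ContinuousOn.norm
      intro z hz
      exact (hda z (hRU z (hsph z hz)).1).continuousAt.continuousWithinAt
    · intro z hz
      exact norm_ne_zero_iff.2 ((hRU z (hsph z hz)).2 0)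
  have i2 : ∀ i, CircleIntegrable (fun z => |c.lam z (Pi.single i 1)|) 0 R := fun i =>
    (hlamI (Pi.single i 1)).abs
  have i3 : CircleIntegrable (fun z => ∑ i : Fin n, |c.lam z (Pi.single i 1)|) 0 R :=
    CircleIntegrable.fun_sum _ fun i _ => i2 i
  have i4 : CircleIntegrable (fun _ : ℂ => C1 * (1 + Real.log R)) 0 R :=
    circleIntegrable_const _ _ _
  have i13 : CircleIntegrable (fun z => Real.log ‖c.X 0 z‖ +
      ∑ i : Fin n, |c.lam z (Pi.single i 1)|) 0 R := i1.add i3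
  have h1 : Tm G R ≤ L (c.X 0) R + ∑ i : Fin n,
      Real.circleAverage (fun z => |c.lam z (Pi.single i 1)|) 0 R + C1 * (1 + Real.log R) := by
    have e1 : L (c.X 0) R + ∑ i : Fin n,
        Real.circleAverage (fun z => |c.lam z (Pi.single i 1)|) 0 R + C1 * (1 + Real.log R) =
        Real.circleAverage (fun z => (Real.log ‖c.X 0 z‖ +
          ∑ i : Fin n, |c.lam z (Pi.single i 1)|) + C1 * (1 + Real.log R)) 0 R := by
      rw [Real.circleAverage_fun_add i13 i4, Real.circleAverage_fun_add i1 i3,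
        Real.circleAverage_fun_sum fun l _ => i2 l, Real.circleAverage_const]
      rfl
    rw [e1]
    apply Real.circleAverage_mono (Tm_int hd.diff hd.G0 R) ((i1.add i3).add i4)
    intro z hz
    have hzR := hsph z hz
    have hzU := hRU z hzR
    obtain ⟨l, hl⟩ := exists_coord (G z)
    show Real.log ‖G z‖ ≤ Real.log ‖c.X 0 z‖ + ∑ i : Fin n, |c.lam z (Pi.single i 1)| +
      C1 * (1 + Real.log R)
    have h0 := hcmp (z := z) (by linarith) l (by rw [← hX]; exact hzU.2 l)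
    rw [hzR] at h0
    have h0' := (abs_le.1 h0).1
    rw [hl]
    have hkey : Real.log ‖c.X l z‖ ≤ Real.log ‖c.X 0 z‖ +
        ∑ i : Fin n, |c.lam z (Pi.single i 1)| := by
      refine Fin.cases ?_ (fun i => ?_) l
      · have : 0 ≤ ∑ i : Fin n, |c.lam z (Pi.single i 1)| :=
          Finset.sum_nonneg fun i _ => abs_nonneg _
        linarith
      · have h2 : |c.lam z (Pi.single i 1)| ≤ ∑ i : Fin n, |c.lam z (Pi.single i 1)| :=
          Finset.single_le_sum (f := fun i : Fin n => |c.lam z (Pi.single i 1)|)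
            (fun i _ => abs_nonneg _) (Finset.mem_univ i)
        have h3 := le_abs_self (c.lam z (Pi.single i 1))
        rw [lam_eq] at h3 h2
        linarith
    rw [hX l z] at hkey
    linarith
  -- Jensen
  have h2 : L (c.X 0) R ≤ c.cnt (fun z => ((c.ord z F0).untop₀ : ℤ)) R + C * (1 + Real.log R) := by
    have h3 := hC R hRc
    have h4 : Real.circleAverage (fun z => Real.log ‖c.val F0 z‖) 0 R = L (c.X 0) R := by
      unfold L
      apply Real.circleAverage_congr_sphere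
      intro z hz
      have hzU := hRU z (hsph z hz)
      show Real.log ‖c.val F0 z‖ = Real.log ‖c.X 0 z‖
      rw [hF0v z hzU]
    rw [h4] at h3
    have := (abs_le.mp h3).2
    linarith
  -- counting functions
  have pabs : ∀ m', Pc c R (fun z => (|c.del z m'| : ℤ)) (c.cnt (fun z => (|c.del z m'| : ℤ)) R) :=
    fun m' => ⟨(a_cnt n c).2.2.2 _ _ ((a_ord n c).2.2.2.2.2.2.2 m') (fun z _ => by
      push_cast; rw [abs_abs]), rfl⟩
  have hp2 := Pc.sum a_cnt (Finset.univ : Finset (Fin n)) (fun i _ => pabs (Pi.single i 1))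
  have h3 : c.cnt (fun z => ((c.ord z F0).untop₀ : ℤ)) R ≤
      ∑ i : Fin n, c.cnt (fun z => (|c.del z (Pi.single i 1)| : ℤ)) R := by
    rw [← hp2.2]
    refine (a_cnt n c).2.2.1 _ _ ((a_ord n c).2.2.2.2.2.1 F0 hF0) hp2.1 (fun z hz => ?_) R
    have hzE : z ∈ Ext c.r0 := ext_of_le hz
    rw [hord z hzE]
    have hnn : ∀ i : Fin n, (0 : ℤ) ≤ |c.del z (Pi.single i 1)| := fun i => abs_nonneg _
    have hkey : c.oX 0 z ≤ ∑ i : Fin n, |c.del z (Pi.single i 1)| := by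
      by_cases h4 : c.X 0 z = 0
      · obtain ⟨l, hl⟩ := c.ncz z hzE
        obtain ⟨i, rfl⟩ : ∃ i : Fin n, l = i.succ := by
          refine ⟨l.pred ?_, (Fin.succ_pred l ?_).symm⟩ <;>
          · rintro rfl
            exact hl h4
        have hl' : c.oX i.succ z = 0 := by
          unfold Curve.oX
          rw [(c.an _ z hzE).analyticOrderAt_eq_zero.mpr hl]
          rfl
        refine le_trans ?_ (Finset.single_le_sum
          (f := fun i : Fin n => |c.del z (Pi.single i 1)|) (fun i _ => hnn i)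
          (Finset.mem_univ i))
        rw [del_eq, hl', zero_sub, abs_neg]
        exact le_abs_self _
      · have hl' : c.oX 0 z = 0 := by
          unfold Curve.oX
          rw [(c.an _ z hzE).analyticOrderAt_eq_zero.mpr h4]
          rfl
        rw [hl']
        exact Finset.sum_nonneg fun i _ => hnn i
    exact_mod_cast hkey
  have h4 : c.ch R = ∑ i : Fin n, Real.circleAverage (fun z => |c.lam z (Pi.single i 1)|) 0 R +
      ∑ i : Fin n, c.cnt (fun z => (|c.del z (Pi.single i 1)| : ℤ)) R := by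
    unfold Curve.ch Curve.ht
    rw [Finset.sum_add_distrib]
  rw [h4]
  linarith

end Pool.Agent.Q161.PD
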