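import Pool.Agent.Q161.PD.Fin
import Pool.Agent.TH143.GT.Fin
import Pool.Agent.W603.BP.RMain

/-!
The inequalities in terms of the punctured disc.
-/

set_option autoImplicit false

namespace Pool.Agent.Q161.PD

open Filter Metric Set Topology MvPolynomial FF MeasureTheory
open Pool.Agent.W603.LV Pool.Agent.W602.GT Pool.Agent.Q72.NA Pool.Agent.W603.BP
open Pool.Agent.W603.PV Pool.Agent.W603.BPR Pool.Agent.W603.GR Pool.Agent.TH143.GT
open Pool.Agent.Q72.TR (Tm CharT char_log)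
open Pool.Agent.Q72.NW (Tra Cone alg_of_nocommon gen_main)

theorem circleAverage_inv (φ : ℂ → ℝ) (r : ℝ) :
    Real.circleAverage (fun z => φ z⁻¹) 0 r = Real.circleAverage φ 0 r⁻¹ := by
  unfold Real.circleAverage
  congr 1
  calc ∫ θ in 0..2 * Real.pi, φ (circleMap 0 r θ)⁻¹
      = ∫ θ in 0..2 * Real.pi, φ (circleMap 0 r⁻¹ (-θ)) := by
        simp [circleMap_zero_inv]
    _ = ∫ θ in 0..2 * Real.pi, φ (circleMap 0 r⁻¹ θ) := by
        rw [intervalIntegral.integral_comp_neg (fun w ↦ φ (circleMap 0 r⁻¹ w))]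
        have t₀ : Function.Periodic (fun w ↦ φ (circleMap 0 r⁻¹ w)) (2 * Real.pi) :=
          fun x ↦ by simp [periodic_circleMap 0 r⁻¹ x]
        simpa using (t₀.intervalIntegral_add_eq (-(2 * Real.pi)) 0)

/-- the points of the cone -/
theorem cone_of {n d : ℕ} {p : Ideal (MvPolynomial (Fin (n + 1)) ℂ)}
    {Q : MvPolynomial (Fin (n + 1)) ℂ} {K : Type} [Field K] [Algebra ℂ K] {y : Fin (n + 1) → K}
    (hy : FunField p Q K d y) {x : Fin (n + 1) → ℂ} (hx : ∀ H ∈ p, eval x H = 0) : x ∈ Cone y :=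
  fun H D hH hHy => hx H (hy.mem H ⟨D, hH⟩ hHy)

theorem of_cone {n d : ℕ} {p : Ideal (MvPolynomial (Fin (n + 1)) ℂ)} (hp : IsHomog p)
    {Q : MvPolynomial (Fin (n + 1)) ℂ} {K : Type} [Field K] [Algebra ℂ K] {y : Fin (n + 1) → K}
    (hy : FunField p Q K d y) {x : Fin (n + 1) → ℂ} (hx : x ∈ Cone y) : ∀ H ∈ p, eval x H = 0 := by
  intro H hH
  rw [← sum_homogeneousComponent H, map_sum]
  refine Finset.sum_eq_zero fun i _ => ?_
  exact hx _ i (homogeneousComponent_isHomogeneous i H) (hy.sub.mem _ (hp H hH i))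

end Pool.Agent.Q161.PD
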