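import Pool.Agent.Q161.PD.Circ
import Pool.Agent.W603.BP.Extn

/-!
Holomorphic maps from the punctured disc whose characteristic grows like the logarithm extend.
-/

set_option autoImplicit false

namespace Pool.Agent.Q161.PD

open Filter Metric Set Topology Pool.Agent.W603.BP Pool.Agent.H159R3.NV
open Pool.Agent.Q72.TR (Tm Tm_int norm_le_coord exists_coord)
open Pool.Agent.Q72.NW (Tra rational)

/-- the circle averages exist -/
theorem TmE_int {N : ℕ} {w : ℂ → Fin (N + 1) → ℂ} (hw : ∀ l, AnalyticOnNhd ℂ (fun z => w z l) (Ext 1))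
    (h0 : ∀ z ∈ Ext 1, w z ≠ 0) {r : ℝ} (hr : 1 < r) :
    CircleIntegrable (fun z => Real.log ‖w z‖) 0 r := by
  have hsph : ∀ z ∈ sphere (0 : ℂ) |r|, z ∈ Ext 1 := fun z hz => by
    rw [mem_sphere_zero_iff_norm, abs_of_pos (by linarith)] at hz
    show 1 < ‖z‖
    rw [hz]
    exact hr
  apply ContinuousOn.circleIntegrable'
  apply ContinuousOn.log
  · apply ContinuousOn.norm
    intro z hz
    exact (continuousAt_pi.2 fun l => (hw l z (hsph z hz)).continuousAt).continuousWithinAt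
  · intro z hz
    exact norm_ne_zero_iff.2 (h0 z (hsph z hz))

theorem poly_mero (Q : Polynomial ℂ) : MeromorphicAt (fun v : ℂ => Q.eval v⁻¹) 0 := by
  have h1 : (fun v : ℂ => Q.eval v⁻¹) = fun v => ∑ i ∈ Q.support, Q.coeff i * (v⁻¹) ^ i := by
    funext v
    rw [Polynomial.eval_eq_sum, Polynomial.sum]
  rw [h1]
  exact MeromorphicAt.fun_sum fun i _ =>
    (MeromorphicAt.const _ _).fun_mul (((MeromorphicAt.id 0).fun_inv).fun_pow i)

theorem poly_ne {Q : Polynomial ℂ} (hQ : Q ≠ 0) : ∀ᶠ v in 𝓝[≠] (0 : ℂ), Q.eval v⁻¹ ≠ 0 := by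
  classical
  obtain ⟨M, hM⟩ : ∃ M : ℝ, ∀ x, Q.eval x = 0 → ‖x‖ ≤ M := by
    have h1 : ({x | Q.eval x = 0}).Finite := by
      refine (Q.roots.toFinset.finite_toSet).subset fun x hx => ?_
      rw [Finset.mem_coe, Multiset.mem_toFinset, Polynomial.mem_roots hQ]
      exact hx
    obtain ⟨M, hM⟩ := (h1.image fun x => ‖x‖).bddAbove
    exact ⟨M, fun x hx => hM ⟨x, hx, rfl⟩⟩
  have hpos : 0 < (|M| + 1)⁻¹ := by positivity
  filter_upwards [PB_mem hpos] with v hv h0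
  have h1 := hM _ h0
  rw [norm_inv] at h1
  have h2 : 0 < ‖v‖ := norm_pos_iff.2 hv.1
  have h3 : |M| + 1 < ‖v‖⁻¹ := by
    rw [lt_inv_comm₀ (by positivity) h2]
    exact hv.2
  have := le_abs_self M
  linarith

theorem inv_mem {v : ℂ} {a : ℝ} (ha : 0 < a) (hv : v ∈ PB a⁻¹) : v⁻¹ ∈ Ext a := by
  have h2 : 0 < ‖v‖ := norm_pos_iff.2 hv.1
  show a < ‖v⁻¹‖
  rw [norm_inv, lt_inv_comm₀ ha h2]
  exact hv.2

theorem inv_mem' {z : ℂ} {a : ℝ} (ha : 0 < a) (hz : z ∈ Ext a) : z⁻¹ ∈ PB a⁻¹ := by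
  have h1 : a < ‖z‖ := hz
  refine ⟨inv_ne_zero (ext_ne_zero ha.le hz), ?_⟩
  rw [norm_inv]
  exact inv_strictAnti₀ ha h1

/-- maps of logarithmic growth extend -/
theorem ext_of_not_tra {N : ℕ} {f : ℂ → Fin (N + 1) → ℂ}
    (hf : ∀ j, AnalyticOnNhd ℂ (fun w => f w j) (PB 1)) (hne : ∀ w ∈ PB 1, f w ≠ 0)
    (h : ¬ Tra fun z => f z⁻¹) : Extends f := by
  classical
  obtain ⟨w, hw⟩ : ∃ w : ℂ → Fin (N + 1) → ℂ, w = fun z => f z⁻¹ := ⟨_, rfl⟩
  rw [← hw] at h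
  have hmem : ∀ z ∈ Ext 1, z⁻¹ ∈ PB 1 := fun z hz => by
    have := inv_mem' one_pos hz
    rwa [inv_one] at this
  have han : ∀ j, AnalyticOnNhd ℂ (fun z => w z j) (Ext 1) := by
    intro j z hz
    rw [hw]
    exact (hf j z⁻¹ (hmem z hz)).comp (g := fun v => f v j)
      (analyticAt_inv (ext_ne_zero zero_le_one hz))
  have h0 : ∀ z ∈ Ext 1, w z ≠ 0 := fun z hz => by
    rw [hw]
    exact hne _ (hmem z hz)
  -- companions
  have hcp : ∀ j, ∃ V H : ℂ → ℂ, Differentiable ℂ V ∧ MeromorphicAt (fun v : ℂ => H v⁻¹) 0 ∧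
      (∀ z, 3 ≤ ‖z‖ → w z j = H z * V z ∧ H z ≠ 0) ∧
      (∀ z, V z = 0 → (2 < ‖z‖ ∧ w z j = 0) ∨ ∀ y ∈ Ext 1, w y j = 0) ∧
      ∃ C : ℝ, 0 ≤ C ∧ ∀ z, 4 ≤ ‖z‖ → |Real.log ‖H z‖| ≤ C * (1 + Real.log ‖z‖) := by
    intro j
    by_cases hj : ∃ z ∈ Ext 1, w z j ≠ 0
    · obtain ⟨V, H, hc⟩ := exists_cpn (han j) hj
      exact ⟨V, H, hc.vd, hc.hm, fun z hz => ⟨hc.eq3 hz, hc.H3 hz⟩,
        fun z hz => Or.inl (hc.of_zero hz), hc.lb⟩
    · push Not at hj
      refine ⟨fun _ => 0, fun _ => 1, differentiable_const _, MeromorphicAt.const _ _,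
        fun z hz => ⟨?_, one_ne_zero⟩, fun z _ => Or.inr hj, 0, le_rfl, fun z _ => by simp⟩
      rw [one_mul]
      exact hj z (by show 1 < ‖z‖; linarith)
  choose V H hV hH hVH hzero C hC0 hC using hcp
  obtain ⟨W, hW⟩ : ∃ W : ℂ → Fin (N + 1) → ℂ, ∀ z j, W z j = V j z := ⟨fun z j => V j z, fun _ _ => rfl⟩
  have hWd : Differentiable ℂ W := by
    refine differentiable_pi.2 fun j => ?_
    simp only [hW]
    exact hV j
  have hW0 : ∀ z, W z ≠ 0 := by
    intro z hz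
    obtain ⟨j0, hj0⟩ : ∃ j0, ∃ y ∈ Ext 1, w y j0 ≠ 0 := by
      obtain ⟨y, hy⟩ := Ext_nonempty 1
      obtain ⟨j0, hj0⟩ := Function.ne_iff.1 (h0 y hy)
      exact ⟨j0, y, hy, hj0⟩
    obtain ⟨y, hy, hj0⟩ := hj0
    have h1 : ∀ j, V j z = 0 := fun j => by rw [← hW]; exact congrFun hz j
    have h2 : 2 < ‖z‖ := by
      rcases hzero j0 z (h1 j0) with h3 | h3
      · exact h3.1
      · exact absurd (h3 y hy) hj0
    have hzE : z ∈ Ext 1 := by show 1 < ‖z‖; linarith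
    refine h0 z hzE (funext fun j => ?_)
    rcases hzero j z (h1 j) with h3 | h3
    · exact h3.2
    · exact h3 z hzE
  -- the characteristic
  obtain ⟨C1, hC1⟩ : ∃ C1, C1 = ∑ j, C j := ⟨_, rfl⟩
  have hC10 : 0 ≤ C1 := by rw [hC1]; exact Finset.sum_nonneg fun j _ => hC0 j
  have hlb : ∀ j z, 4 ≤ ‖z‖ → |Real.log ‖H j z‖| ≤ C1 * (1 + Real.log ‖z‖) := by
    intro j z hz
    have hlz : 0 ≤ Real.log ‖z‖ := Real.log_nonneg (by linarith)
    refine (hC j z hz).trans (mul_le_mul_of_nonneg_right ?_ (by linarith))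
    rw [hC1]
    exact Finset.single_le_sum (f := C) (fun i _ => hC0 i) (Finset.mem_univ j)
  have hTm : ∀ r : ℝ, 4 ≤ r → Tm W r ≤ Tm w r + C1 * (1 + Real.log r) := by
    intro r hr
    have hr0 : 0 < r := by linarith
    have i1 := TmE_int han h0 (show 1 < r by linarith)
    have i2 : CircleIntegrable (fun _ : ℂ => C1 * (1 + Real.log r)) 0 r :=
      circleIntegrable_const _ _ _
    have e1 : Tm w r + C1 * (1 + Real.log r) =
        Real.circleAverage (fun z => Real.log ‖w z‖ + C1 * (1 + Real.log r)) 0 r := by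
      rw [Real.circleAverage_fun_add i1 i2, Real.circleAverage_const]
      rfl
    rw [e1]
    apply Real.circleAverage_mono (Tm_int hWd hW0 r) (i1.add i2)
    intro z hz
    have hzr : ‖z‖ = r := by
      rw [mem_sphere_zero_iff_norm, abs_of_pos hr0] at hz
      exact hz
    show Real.log ‖W z‖ ≤ Real.log ‖w z‖ + C1 * (1 + Real.log r)
    obtain ⟨l, hl⟩ := exists_coord (W z)
    have hpos : 0 < ‖W z l‖ := by rw [← hl]; exact norm_pos_iff.2 (hW0 z)
    rw [hl]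
    obtain ⟨e2, e3⟩ := hVH l z (by linarith)
    rw [← hW] at e2
    have e4 := hlb l z (by linarith)
    have e5 : Real.log ‖w z l‖ = Real.log ‖H l z‖ + Real.log ‖W z l‖ := by
      rw [e2, norm_mul, Real.log_mul (norm_ne_zero_iff.2 e3) hpos.ne']
    have e6 : Real.log ‖w z l‖ ≤ Real.log ‖w z‖ := by
      refine Real.log_le_log ?_ (norm_le_coord z l)
      rw [e2, norm_mul]
      exact mul_pos (norm_pos_iff.2 e3) hpos
    have e7 := (abs_le.1 e4).1
    rw [hzr] at e7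
    linarith
  have hnt : ¬ Tra W := by
    intro ht
    apply h
    intro A
    obtain ⟨R0, hR0⟩ := ht (|A| + 2 * C1)
    refine ⟨max (max R0 4) (Real.exp 1), fun r hr => ?_⟩
    have h1 : R0 ≤ r := ((le_max_left _ _).trans (le_max_left _ _)).trans hr
    have h2 : 4 ≤ r := ((le_max_right _ _).trans (le_max_left _ _)).trans hr
    have h3 : Real.exp 1 ≤ r := (le_max_right _ _).trans hr
    have h4 : 1 ≤ Real.log r := by
      rw [Real.le_log_iff_exp_le (by linarith)]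
      exact h3
    have h5 := hR0 r h1
    have h6 := hTm r h2
    have h7 : A * Real.log r ≤ |A| * Real.log r :=
      mul_le_mul_of_nonneg_right (le_abs_self A) (by linarith)
    have h8 : C1 * (1 + Real.log r) ≤ C1 * (2 * Real.log r) :=
      mul_le_mul_of_nonneg_left (by linarith) hC10
    linarith
  obtain ⟨u, Q, hu, hu0, hQ⟩ := rational hWd hW0 hnt
  refine extends_of f hf hne fun j k hj hk => ?_
  have hfe : ∀ i, ∀ v ∈ PB (3 : ℝ)⁻¹, f v i = H i v⁻¹ * (u v⁻¹ * (Q i).eval v⁻¹) := by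
    intro i v hv
    have h3 : 3 ≤ ‖v⁻¹‖ := (inv_mem (by norm_num) hv).le
    have h4 := (hVH i v⁻¹ h3).1
    rw [← hW, hQ] at h4
    rw [← h4, hw]
    show f v i = f (v⁻¹)⁻¹ i
    rw [inv_inv]
  have hQk : Q k ≠ 0 := by
    intro h1
    apply hk
    filter_upwards [PB_mem (show (0 : ℝ) < 3⁻¹ by norm_num)] with v hv
    rw [hfe k v hv, h1, Polynomial.eval_zero, mul_zero, mul_zero]
  refine ⟨fun v => (H j v⁻¹ * (Q j).eval v⁻¹) / (H k v⁻¹ * (Q k).eval v⁻¹), ?_, ?_⟩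
  · exact ((hH j).fun_mul (poly_mero _)).fun_div ((hH k).fun_mul (poly_mero _))
  · filter_upwards [PB_mem (show (0 : ℝ) < 3⁻¹ by norm_num), poly_ne hQk] with v hv hv2
    have h1 : H k v⁻¹ ≠ 0 := (hVH k v⁻¹ (inv_mem (by norm_num) hv).le).2
    show f v j = (H j v⁻¹ * (Q j).eval v⁻¹) / (H k v⁻¹ * (Q k).eval v⁻¹) * f v k
    rw [hfe j v hv, hfe k v hv, div_mul_eq_mul_div, eq_div_iff (mul_ne_zero h1 hv2)]
    ring

end Pool.Agent.Q161.PD
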