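import Pool.Agent.Q161.PD.Main
import Pool.Agent.Q161.PD.Bdry

/-!
The truncated inequality for holomorphic maps from the punctured disc.
-/

set_option autoImplicit false

namespace Pool.Agent.Q161.PD

open Filter Metric Set Topology MvPolynomial FF MeasureTheory
open Pool.Agent.W603.LV Pool.Agent.W602.GT Pool.Agent.Q72.NA Pool.Agent.W603.BP
open Pool.Agent.Q72.TR (Tm)
open Pool.Agent.Q72.NW (Tra Cone alg_of_nocommon)

theorem ord_inv_eq (F : ℂ → ℂ) {z : ℂ} (hz : z ≠ 0) :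
    analyticOrderAt (fun z => F z⁻¹) z = analyticOrderAt F z⁻¹ := by
  have h1 : AnalyticAt ℂ (fun z : ℂ => z⁻¹) z := analyticAt_inv hz
  have h2 : deriv (fun z : ℂ => z⁻¹) z ≠ 0 := by
    rw [deriv_inv]
    exact neg_ne_zero.2 (inv_ne_zero (pow_ne_zero 2 hz))
  exact analyticOrderAt_comp_of_deriv_ne_zero (f := F) h1 h2

theorem pd_main {N n d : ℕ} (K : Type) [Field K] [Algebra ℂ K] (a : Fin (N + 1) → K)
    (hK : IntermediateField.adjoin ℂ {g : K | ∃ i j, a j ≠ 0 ∧ g = a i / a j} = ⊤)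
    (F : Fin (n + 1) → MvPolynomial (Fin (N + 1)) ℂ) (e : ℕ) (he : 0 < e)
    (hf : ∀ i, (F i).IsHomogeneous e) (hf0 : ∀ i, aeval a (F i) ≠ 0)
    (hcz : ∀ x ∈ Cone a, x ≠ 0 → ∃ i, eval x (F i) ≠ 0) (Bd : Place ℂ K → Prop)
    (hBd : ∀ P, Bd P → ∃ i, P.ord (aeval a (F i)) ≠ P.ord (aeval a (F 0)))
    (hlgt : LogGeneralType ℂ K d Bd) :
    ∃ (B : MvPolynomial (Fin (N + 1)) ℂ) (E : ℕ) (ε : ℝ) (m : ℕ), B.IsHomogeneous E ∧
      aeval a B ≠ 0 ∧ 0 < ε ∧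
      ∀ f : ℂ → Fin (N + 1) → ℂ, (∀ j, AnalyticOnNhd ℂ (fun w => f w j) (PB 1)) →
        (∀ w ∈ PB 1, f w ≠ 0) → (∀ w ∈ PB 1, f w ∈ Cone a) → (∃ w ∈ PB 1, eval (f w) B ≠ 0) →
        ¬ Extends f →
        Tra (fun z => f z⁻¹) ∧
        (∃ X : Set ℝ, volume X < ⊤ ∧ ∀ r, 2 < r → r ∉ X →
          ε * CharE (fun z => f z⁻¹) r ≤ CountE F (fun z => f z⁻¹) r) ∧
        ∃ i, ∃ z ∈ PB 1, eval (f z) (F i) = 0 ∧
          analyticOrderAt (fun z => eval (f z) (F i)) z < m := by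
  have halg := alg_of_nocommon hK F e he hf (hf0 0) hcz
  obtain ⟨B, E, ε, m, hB, hBa, hε, hmain⟩ := tr_ext K a hK F e he hf hf0 hcz halg
    (lgt_mono hBd hlgt)
  refine ⟨B, E, ε, m, hB, hBa, hε, fun f hfa hf1 hfc hfB hext => ?_⟩
  have htr : Tra (fun z => f z⁻¹) := by
    by_contra h
    exact hext (ext_of_not_tra hfa hf1 h)
  have hmem : ∀ z ∈ Ext 1, z⁻¹ ∈ PB 1 := fun z hz => by
    have := inv_mem' one_pos hz
    rwa [inv_one] at this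
  have hmem' : ∀ z ∈ PB 1, z⁻¹ ∈ Ext 1 := fun z hz => inv_mem one_pos (by rwa [inv_one])
  obtain ⟨h1, i, z, hz2, hz0, hzo⟩ := hmain (fun z => f z⁻¹) (fun l z hz =>
    (hfa l z⁻¹ (hmem z hz)).comp (g := fun v => f v l) (analyticAt_inv (ext_ne_zero zero_le_one hz)))
    (fun z hz => hf1 _ (hmem z hz)) (fun z hz => hfc _ (hmem z hz)) (by
      obtain ⟨w, hw, hwB⟩ := hfB
      exact ⟨w⁻¹, hmem' w hw, by simp only [inv_inv]; exact hwB⟩) htr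
  have hzE : z ∈ Ext 1 := by show 1 < ‖z‖; linarith
  refine ⟨htr, h1, i, z⁻¹, hmem z hzE, hz0, ?_⟩
  rw [← ord_inv_eq (fun z => eval (f z) (F i)) (ext_ne_zero zero_le_one hzE)]
  exact hzo

end Pool.Agent.Q161.PD
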