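import Pool.Agent.Q161.PD.Circ

/-!
The truncated inequality outside of a set of finite measure, for curves on the exterior of the unit
disc.
-/

set_option autoImplicit false

namespace Pool.Agent.Q161.PD

open Filter Metric Set Topology Pool.Agent.W603.BP Pool.Agent.H159R3.NV MeasureTheory
open Pool.Agent.Y192.OG (Curve Rad Lau Le)
open Pool.Agent.Q72.TR (Tm Nb Sm Sm_le Sm_mono Tm_le_Sm tc tc_le Nb_comp Nb_le Nb_nonneg borel)
open Pool.Agent.Q72.SH (coord_diff eval_diff)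
open Pool.Agent.Q72.NW (eval_one exists_large log_lin)

variable {n : ℕ} {g G H : ℂ → Fin (n + 1) → ℂ} (hd : Dat g G H)

include hd in
/-- the monotone function comparable to the characteristic -/
theorem exists_u : ∃ (u : ℝ → ℝ) (cu : ℝ), 1 ≤ cu ∧ (∀ r, 1 ≤ r → Tm G r ≤ u r) ∧
    (∀ r, 1 ≤ r → 2 + Real.log r ≤ u r) ∧ (∀ r R, 1 ≤ r → r ≤ R → u r ≤ u R) ∧
    ∀ r, 1 ≤ r → u r ≤ (n + 1) * Tm G r + Real.log r + cu := by
  obtain ⟨u, cu, h1, h2, h3, h4, h5⟩ := Pool.Agent.Q72.NW.exists_u hd.diff hd.G0 hd.Gne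
  refine ⟨fun r => u r + Real.log r + 3, cu + 3, by linarith, fun r hr => ?_, fun r hr => ?_,
    fun r R hr hrR => ?_, fun r hr => ?_⟩
  · have := h2 r hr
    have := Real.log_nonneg hr
    simp only
    linarith
  · have := h3 r hr
    simp only
    linarith
  · have := h4 r R hr hrR
    have := Real.log_le_log (by linarith) hrR
    simp only
    linarith
  · have := h5 r hr
    simp only
    linarith

theorem step (u : ℝ → ℝ) (cu : ℝ) (hTle : ∀ r, 1 ≤ r → Tm G r ≤ u r)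
    (hu1 : ∀ r, 1 ≤ r → 2 + Real.log r ≤ u r) (hum : ∀ r R, 1 ≤ r → r ≤ R → u r ≤ u R)
    (F : Lau n) (hF : (cur hd).ev F ≠ 0) : ∃ B Cl CN : ℝ, 1 ≤ B ∧ 0 ≤ Cl ∧ 0 ≤ CN ∧
    ∀ r : ℝ, 5 ≤ r → u (r + 1 / u r) ≤ 2 * u r → ∃ s ε : ℝ,
      r ≤ s ∧ s ≤ r + 1 ∧ 0 < ε ∧ ε ≤ 1 ∧ Real.log (1 / ε) ≤ Cl + 3 * Real.log r + 10 * Real.log (u r) ∧
      Nb G 1 s ≤ Nb G 1 r + CN ∧
      (∀ z, ‖z‖ = s → ∀ y ∈ closedBall z ε, y ∈ (cur hd).U) ∧
      (∀ z, ‖z‖ = s → ∀ i j, ∀ y ∈ closedBall z ε, ‖(cur hd).X j y /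
        (cur hd).X i y‖ ≤ B * ‖(cur hd).X j z / (cur hd).X i z‖) ∧
      (∀ z, ‖z‖ = s → ∀ y ∈ closedBall z ε, ‖(cur hd).val ((cur hd).ev F) y‖ ≤
        B * ‖(cur hd).val ((cur hd).ev F) z‖) := by
  obtain ⟨B, c, hB, hc, hgood⟩ := circ hd F hF
  have hgQ : ∃ y, MvPolynomial.eval (G y) (1 : MvPolynomial (Fin (n + 1)) ℂ) ≠ 0 :=
    ⟨0, eval_one _⟩
  obtain ⟨cN, hcN, hNle⟩ := Nb_le (MvPolynomial.isHomogeneous_one _ _) hd.diff hd.G0 hgQ
  have hn : (0 : ℝ) ≤ n := Nat.cast_nonneg n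
  refine ⟨B, Real.log (c * 16384), (n + 2) * (2 + cN), hB, Real.log_nonneg (by nlinarith),
    by positivity, ?_⟩
  intro r hr5 hub
  have hr : 1 ≤ r := by linarith
  set U : ℝ := u r with hU
  have hlr : 0 ≤ Real.log r := Real.log_nonneg hr
  have hU2 : 2 + Real.log r ≤ U := hu1 r hr
  have hU1 : 1 ≤ U := by linarith
  have hU0 : 0 < U := by linarith
  set δ : ℝ := 1 / (8 * U ^ 2) with hδ
  have hδ0 : 0 < δ := by positivity
  have hδU : δ * (8 * U ^ 2) = 1 := by rw [hδ]; field_simp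
  have hδ8 : 8 * U * δ ≤ 1 / U := by
    rw [le_div_iff₀ hU0]
    nlinarith
  have hδ1 : δ ≤ 1 / 8 := by
    have hU2 : 1 ≤ U ^ 2 := one_le_pow₀ hU1
    rw [hδ]
    exact one_div_le_one_div_of_le (by norm_num) (by linarith)
  set R : ℝ := r + 1 / U with hR
  have hUi : 1 / U ≤ 1 := by rw [div_le_one hU0]; exact hU1
  have hUi0 : 0 < 1 / U := by positivity
  have h8δ : 8 * δ ≤ 1 / U := by nlinarith
  have hrR : r + 4 * δ ≤ R := by rw [hR]; linarith
  have hr4 : 1 ≤ r + 4 * δ := by linarith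
  have hTR : Tm G (r + 4 * δ) ≤ 2 * U := by
    have h1 := hTle _ hr4
    have h2 := hum _ _ hr4 hrR
    linarith
  have hlog4 : 1 + Real.log (r + 4 * δ) ≤ 2 * U := by
    have h1 : Real.log (r + 4 * δ) ≤ Real.log (2 * r) := Real.log_le_log (by linarith) (by linarith)
    rw [Real.log_mul (by norm_num) (by linarith)] at h1
    have h2 := Real.log_le_sub_one_of_pos (show (0 : ℝ) < 2 by norm_num)
    linarith
  obtain ⟨s, ε, hrs, hsδ, hε0, hε1, hεX, k1, k2, k3⟩ :=
    hgood r δ (2 * U) hr5 hδ0 (by linarith) hTR hlog4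
  refine ⟨s, ε, hrs, by linarith, hε0, hε1, ?_, ?_, k1, k2, k3⟩
  -- the error
  · have h2 : c * (r ^ 3 * (2 * U) ^ 2 / δ ^ 4) = c * 16384 * (r ^ 3 * U ^ 10) := by
      rw [hδ]
      field_simp
      ring
    rw [h2] at hεX
    have h3 := Real.log_le_log (by positivity) hεX
    have hr0 : 0 < r := by linarith
    rw [Real.log_mul (show c * 16384 ≠ 0 by positivity) (show r ^ 3 * U ^ 10 ≠ 0 by positivity),
      Real.log_mul (show r ^ 3 ≠ 0 by positivity) (show U ^ 10 ≠ 0 by positivity),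
      Real.log_pow, Real.log_pow] at h3
    push_cast at h3
    linarith
  -- the counting function
  · have hsR : s < R := by
      rw [hR]
      linarith
    have hs1 : 1 ≤ s := hr.trans hrs
    have hR1 : 1 ≤ R := by linarith
    have h2 := Nb_comp hd.diff hgQ hr hrs hsR
    have h3 := (hNle R hR1).2
    have h4 := hTle R hR1
    have hNR : Nb G 1 R ≤ (n + 2) * (2 * U + cN) := by
      refine h3.trans ?_
      rw [Nat.cast_zero, add_zero]
      refine mul_le_mul_of_nonneg_left ?_ (by positivity)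
      linarith
    have hr0 : 0 < r := by linarith
    have hs0 : 0 < s := by linarith
    have hR0 : 0 < R := by linarith
    have h5 : Real.log (s / r) ≤ δ / r := by
      have h6 := Real.log_le_sub_one_of_pos (show 0 < s / r by positivity)
      have h7 : s / r - 1 = (s - r) / r := by field_simp
      rw [h7] at h6
      exact h6.trans (div_le_div_of_nonneg_right (by linarith) hr0.le)
    have h6 : 7 / 2 * (δ / r) * U ≤ Real.log (R / s) := by
      have h7 := Real.one_sub_inv_le_log_of_pos (show 0 < R / s by positivity)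
      rw [inv_div] at h7
      have h8 : 1 - s / R = (R - s) / R := by field_simp
      have h9 : 7 * δ * U ≤ R - s := by
        have h10 : 8 * U * δ = 1 / U := by
          rw [hδ]
          field_simp
        have h11 : δ ≤ U * δ := le_mul_of_one_le_left hδ0.le hU1
        rw [hR]
        linarith
      have h10 : R ≤ 2 * r := by rw [hR]; linarith
      have h11 : 7 / 2 * (δ / r) * U = (7 * δ * U) / (2 * r) := by field_simp
      rw [h8] at h7
      refine le_trans ?_ h7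
      rw [h11]
      exact div_le_div₀ (by linarith [mul_pos hδ0 hU0]) h9 hR0 h10
    have hlogpos : 0 < Real.log (R / s) := lt_of_lt_of_le (by positivity) h6
    have h7 : Real.log (s / r) / Real.log (R / s) ≤ 1 / U := by
      rw [div_le_iff₀ hlogpos]
      have h8 : 1 / U * (7 / 2 * (δ / r) * U) = 7 / 2 * (δ / r) := by field_simp
      have h9 := mul_le_mul_of_nonneg_left h6 hUi0.le
      rw [h8] at h9
      have h10 : 0 < δ / r := by positivity
      linarith
    have h8 : Real.log (s / r) / Real.log (R / s) * Nb G 1 R ≤ 1 / U * ((n + 2) * (2 * U + cN)) :=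
      mul_le_mul h7 hNR (Nb_nonneg hd.diff hgQ hR1) hUi0.le
    have h9 : 1 / U * ((n + 2) * (2 * U + cN)) ≤ (n + 2) * (2 + cN) := by
      have h10 : 1 / U * ((n + 2) * (2 * U + cN)) = (n + 2) * (2 + cN * (1 / U)) := by
        field_simp
      rw [h10]
      apply mul_le_mul_of_nonneg_left _ (by positivity)
      have := mul_le_mul_of_nonneg_left hUi hcN
      linarith
    linarith

theorem grow (htr : ∀ C : ℝ, ∃ R0 : ℝ, ∀ r, R0 ≤ r → C * Real.log r ≤ Tm G r)
    (F : Lau n) (hF : (cur hd).ev F ≠ 0) (μ : ℕ)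
    (hno : ∀ r : Rad (cur hd) ((cur hd).ev F), ¬ Pool.Agent.Q72.NW.Few μ r) :
    volume {r : ℝ | 1 ≤ r ∧ Nb G 1 r < 1 / (2 * (n + 1) * (μ + 1)) * Tm G r} < ⊤ := by
  by_contra hcon
  rw [not_lt, top_le_iff] at hcon
  have hn : (0 : ℝ) ≤ n := Nat.cast_nonneg n
  have hμ : (0 : ℝ) ≤ μ := Nat.cast_nonneg μ
  obtain ⟨ε0, hε0⟩ : ∃ ε0 : ℝ, ε0 = 1 / (2 * (n + 1) * (μ + 1)) := ⟨_, rfl⟩
  rw [← hε0] at hcon
  have hε0p : 0 < ε0 := by rw [hε0]; positivity
  obtain ⟨u, cu, hcu, hTle, hu1, hum, hule⟩ := exists_u hd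
  have hu1' : ∀ r, 1 ≤ r → 1 ≤ u r := fun r hr => by
    have := hu1 r hr
    have := Real.log_nonneg hr
    linarith
  have hX := borel u hu1' hum
  obtain ⟨B, Cl, CN, hB, hCl, hCN, hstep⟩ := step hd u cu hTle hu1 hum F hF
  obtain ⟨C, hC⟩ := Tm_le_ch hd
  have hsel : ∀ m : ℕ, ∃ r : ℝ, (1 ≤ r ∧ Nb G 1 r < ε0 * Tm G r) ∧
      u (r + 1 / u r) ≤ 2 * u r ∧ (m : ℝ) + 5 ≤ r := by
    intro m
    obtain ⟨r, hr1, hr2, hr3⟩ := exists_large hcon (fun r hr => hr.1) hX (m + 5)
    refine ⟨r, hr1, ?_, hr3⟩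
    by_contra h
    rw [not_le] at h
    exact hr2 ⟨hr1.1, h⟩
  choose rr hrr1 hrr2 hrr3 using hsel
  have hr3 : ∀ m, 5 ≤ rr m := fun m => by
    have := hrr3 m
    have h1 : (0 : ℝ) ≤ m := Nat.cast_nonneg m
    linarith
  have hst := fun m => hstep (rr m) (hr3 m) (hrr2 m)
  choose s ε hs1 hs2 he0 he1 hel hN k1 k2 k3 using hst
  have hsm : ∀ m : ℕ, (m : ℝ) + 5 ≤ s m := fun m => (hrr3 m).trans (hs1 m)
  have hs3 : ∀ m, 5 ≤ s m := fun m => (hr3 m).trans (hs1 m)
  have hlim : Tendsto s atTop atTop := by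
    refine tendsto_atTop_mono (fun m => ?_) tendsto_natCast_atTop_atTop
    have := hsm m
    linarith
  have hlog : Tendsto (fun m => Real.log (s m)) atTop atTop := Real.tendsto_log_atTop.comp hlim
  obtain ⟨T, hT⟩ : ∃ T : ℕ → ℝ, ∀ m, T m = Tm G (s m) := ⟨_, fun _ => rfl⟩
  have ev1 : ∀ A : ℝ, ∀ᶠ m in atTop, A * Real.log (s m) ≤ T m := by
    intro A
    obtain ⟨R0, hR0⟩ := htr A
    filter_upwards [hlim.eventually_ge_atTop R0] with m hm
    rw [hT]
    exact hR0 _ hm
  have evl : ∀ A : ℝ, ∀ᶠ m in atTop, A ≤ Real.log (s m) := fun A => hlog.eventually_ge_atTop A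
  -- comparison with the characteristic
  have ev2 : ∀ A δ : ℝ, 0 < δ → ∀ᶠ m in atTop, A * (1 + Real.log (s m)) ≤ δ * T m := by
    intro A δ hδ
    filter_upwards [ev1 (2 * |A| / δ), evl 1] with m h1 h2
    have h3 : 2 * |A| * Real.log (s m) ≤ δ * T m := by
      have h4 := mul_le_mul_of_nonneg_left h1 hδ.le
      have h5 : δ * (2 * |A| / δ * Real.log (s m)) = 2 * |A| * Real.log (s m) := by
        field_simp
      rwa [h5] at h4
    have h6 : A * (1 + Real.log (s m)) ≤ |A| * (1 + Real.log (s m)) :=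
      mul_le_mul_of_nonneg_right (le_abs_self A) (by linarith)
    have h7 : |A| * (1 + Real.log (s m)) ≤ |A| * (2 * Real.log (s m)) :=
      mul_le_mul_of_nonneg_left (by linarith) (abs_nonneg A)
    linarith
  have evT : ∀ A : ℝ, ∀ᶠ m in atTop, A ≤ T m := by
    intro A
    filter_upwards [ev2 |A| 1 one_pos, evl 0] with m h1 h2
    have h3 : |A| ≤ |A| * (1 + Real.log (s m)) := by
      have := mul_nonneg (abs_nonneg A) h2
      linarith
    have := le_abs_self A
    linarith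
  have hU : ∀ m, u (rr m) ≤ (n + 1) * T m + Real.log (s m) + cu := by
    intro m
    have h1 := hum (rr m) (s m) (by linarith [hr3 m]) (hs1 m)
    have h2 := hule (s m) (by linarith [hs3 m])
    rw [hT]
    linarith
  have ev3 : ∀ δ : ℝ, 0 < δ → ∀ᶠ m in atTop, 10 * Real.log (u (rr m)) ≤ δ * T m := by
    intro δ hδ
    obtain ⟨η, hη⟩ : ∃ η, η = δ / (2 * (n + 2 + cu)) := ⟨_, rfl⟩
    have hη0 : 0 < η := by rw [hη]; positivity
    obtain ⟨K, hK⟩ := log_lin 10 η (by norm_num) hη0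
    filter_upwards [evT 1, evT (2 * K / δ), ev1 1] with m h1 h2 h12
    have h3 := hK (u (rr m)) (hu1' _ (by linarith [hr3 m]))
    have h4 : u (rr m) ≤ (n + 2 + cu) * T m := by
      have h5 := hU m
      have h6 : cu ≤ cu * T m := le_mul_of_one_le_right (by linarith) h1
      linarith
    have h5 : η * u (rr m) ≤ δ / 2 * T m := by
      have h6 := mul_le_mul_of_nonneg_left h4 hη0.le
      have h7 : η * ((n + 2 + cu) * T m) = δ / 2 * T m := by
        rw [hη]
        field_simp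
      rwa [h7] at h6
    have h6 : K ≤ δ / 2 * T m := by
      rw [div_le_iff₀ hδ] at h2
      linarith
    linarith
  have hch : ∀ᶠ m in atTop, 3 / 4 * T m ≤ (cur hd).ch (s m) := by
    filter_upwards [ev2 C (1 / 4) (by norm_num)] with m h1
    have h2 := hC (s m) (hs3 m) fun z hz => k1 m z hz z (mem_closedBall_self (he0 m).le)
    rw [← hT] at h2
    linarith
  -- the sequence of circles
  let r : Rad (cur hd) ((cur hd).ev F) :=
    { s := s
      e := ε
      hs := fun m => by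
        show (3 : ℝ) + 2 ≤ s m
        linarith [hs3 m]
      lim := hlim
      he := fun m => ⟨he0 m, he1 m⟩
      ne := k1
      osc := ⟨B, hB, k2⟩
      oscF := ⟨B, k3⟩
      small := fun δ hδ => by
        filter_upwards [hch, evT 0, ev2 1 (δ / 2) (by positivity), ev2 (Cl + 3) (δ / 4) (by positivity),
          ev3 (δ / 4) (by positivity), evl 0] with m h1 h2 h3 h4 h5 h6
        have h7 : δ / 2 * T m ≤ δ * (cur hd).ch (s m) := by
          have := mul_le_mul_of_nonneg_left h1 hδ.le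
          nlinarith [mul_nonneg hδ.le h2]
        refine ⟨by linarith, ?_⟩
        have h8 := hel m
        have h9 : Real.log (rr m) ≤ Real.log (s m) :=
          Real.log_le_log (by linarith [hr3 m]) (hs1 m)
        have h10 : Cl + 3 * Real.log (rr m) ≤ (Cl + 3) * (1 + Real.log (s m)) := by
          have := mul_nonneg hCl h6
          nlinarith
        linarith }
  refine hno r ?_
  intro δ hδ
  filter_upwards [hch, evT 0, evT (8 * μ * (ε0 * cu + CN)), ev1 (8 * μ * ε0)] with m h1 h2 h3 h13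
  have h4 : (cur hd).cnt (fun z => ((cur hd).bad z : ℤ)) (s m) ≤ Nb G 1 (s m) :=
    cnt_le hd (by linarith [hs3 m])
  have h5 := hN m
  have h6 := (hrr1 m).2
  have h7 : Tm G (rr m) ≤ (n + 1) * T m + Real.log (s m) + cu := (hTle _ (hrr1 m).1).trans (hU m)
  have h8 : Nb G 1 (s m) ≤ ε0 * ((n + 1) * T m + Real.log (s m) + cu) + CN := by
    have := mul_le_mul_of_nonneg_left h7 hε0p.le
    linarith
  have h9 : (μ : ℝ) * (ε0 * ((n + 1) * T m)) ≤ 1 / 2 * T m := by
    have h10 : (μ : ℝ) * (ε0 * (n + 1)) ≤ 1 / 2 := by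
      rw [hε0]
      have h11 : (μ : ℝ) * (1 / (2 * (n + 1) * (μ + 1)) * (n + 1)) = μ / (2 * (μ + 1)) := by
        field_simp
      rw [h11, div_le_iff₀ (by positivity)]
      linarith
    have := mul_le_mul_of_nonneg_right h10 h2
    linarith
  have h10 : (μ : ℝ) * (cur hd).cnt (fun z => ((cur hd).bad z : ℤ)) (s m) ≤
      3 / 4 * T m := by
    have h11 := mul_le_mul_of_nonneg_left (h4.trans h8) hμ
    have h12 : (μ : ℝ) * (ε0 * ((n + 1) * T m + Real.log (s m) + cu) + CN) =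
        μ * (ε0 * ((n + 1) * T m)) + μ * ε0 * Real.log (s m) + μ * (ε0 * cu + CN) := by ring
    rw [h12] at h11
    linarith
  have h11 : 0 ≤ (cur hd).ch (s m) := by linarith
  show (μ : ℝ) * (cur hd).cnt (fun z => ((cur hd).bad z : ℤ)) (s m) ≤
    (cur hd).ch (s m) + δ * (cur hd).ch (s m)
  have := mul_nonneg hδ.le h11
  linarith

end Pool.Agent.Q161.PD
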