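import Pool.Agent.Q161.PD.Lift
import Pool.Agent.Q161.PD.Extn

/-!
The truncated inequality and the extension of holomorphic maps from the punctured disc to pairs of
log general type.
-/

set_option autoImplicit false

namespace Pool.Agent.Q161.PD

open Filter Metric Set Topology MvPolynomial FF MeasureTheory
open Pool.Agent.W603.LV Pool.Agent.W602.GT Pool.Agent.Q72.NA Pool.Agent.W603.BP
open Pool.Agent.Q72.TR (Tm Nb wgt wgt_nonneg mem_zz zz zs Tm_int eval_bound norm_le_coord exists_coord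
  Nb_eq Nb_le_mult not_finite_Ici oo oo_cast FF)
open Pool.Agent.Q72.NW (Tra Cone cone_bound cone_closed cone_smul eval_one mem_zs_one)

theorem fin_zeros_ext {F : ℂ → ℂ} (hF : AnalyticOnNhd ℂ F (Ext 1)) (hne : ∃ z ∈ Ext 1, F z ≠ 0)
    (r : ℝ) : ({x : ℂ | 2 < ‖x‖ ∧ ‖x‖ ≤ r ∧ F x = 0}).Finite := by
  obtain ⟨y, hyE, hy⟩ := hne
  by_contra hinf
  have h2 : ({x : ℂ | 2 < ‖x‖ ∧ ‖x‖ ≤ r ∧ F x = 0}).Infinite := hinf
  have hK : IsCompact {x : ℂ | 2 ≤ ‖x‖ ∧ ‖x‖ ≤ r} := by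
    apply (isCompact_closedBall (0 : ℂ) r).of_isClosed_subset
    · exact (isClosed_le continuous_const continuous_norm).inter
        (isClosed_le continuous_norm continuous_const)
    · intro z hz
      rw [mem_closedBall, dist_zero_right]
      exact hz.2
  obtain ⟨a, haK, ha⟩ := h2.exists_accPt_of_subset_isCompact hK (fun x hx => ⟨hx.1.le, hx.2.1⟩)
  have haE : a ∈ Ext 1 := by
    show 1 < ‖a‖
    linarith [haK.1]
  have h3 : ∃ᶠ x in 𝓝[≠] a, F x = 0 := by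
    rw [accPt_iff_frequently_nhdsNE] at ha
    exact ha.mono fun x hx => hx.2.2
  exact hy (hF.eqOn_zero_of_preconnected_of_frequently_eq_zero (Ext_preconn one_pos) haE h3 hyE)

/-- the characteristic function -/
noncomputable def CharE {N : ℕ} (w : ℂ → Fin (N + 1) → ℂ) (r : ℝ) : ℝ := Tm w r - Tm w 2

/-- the counting function of the points where one of the forms vanishes, each counted once -/
noncomputable def CountE {N n : ℕ} (f : Fin (n + 1) → MvPolynomial (Fin (N + 1)) ℂ)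
    (w : ℂ → Fin (N + 1) → ℂ) (r : ℝ) : ℝ :=
  ∑ᶠ (x : ℂ) (_ : x ∈ {x : ℂ | 2 < ‖x‖ ∧ ‖x‖ ≤ r ∧ ∃ i, eval (w x) (f i) = 0}),
    Real.log (r / ‖x‖)

variable {N n : ℕ} {g G H : ℂ → Fin (n + 1) → ℂ}

theorem count_le (hd : Dat g G H) (hne : ∀ i, ∃ z ∈ Ext 1, g z i ≠ 0) {r : ℝ} (hr : 2 < r) :
    Nb G 1 r ≤ ∑ᶠ (x : ℂ) (_ : x ∈ {x : ℂ | 2 < ‖x‖ ∧ ‖x‖ ≤ r ∧ ∃ i, g x i = 0}),
      Real.log (r / ‖x‖) := by
  classical
  have hQ : ∃ y, MvPolynomial.eval (G y) (1 : MvPolynomial (Fin (n + 1)) ℂ) ≠ 0 :=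
    ⟨0, eval_one _⟩
  have hfin : ({x : ℂ | 2 < ‖x‖ ∧ ‖x‖ ≤ r ∧ ∃ i, g x i = 0}).Finite := by
    refine (Set.finite_iUnion fun i => fin_zeros_ext (hd.an i) (hne i) r).subset ?_
    rintro x ⟨h1, h2, i, h3⟩
    exact Set.mem_iUnion.2 ⟨i, h1, h2, h3⟩
  rw [Nb_eq hd.diff hQ (by linarith), finsum_mem_eq_finite_toFinset_sum _ hfin]
  have hsub : zz hd.diff hQ r ⊆ hfin.toFinset := by
    intro x hx
    rw [mem_zz, mem_zs_one hd.Gne] at hx
    rw [Set.Finite.mem_toFinset]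
    obtain ⟨h1, i, h2⟩ := hx
    obtain ⟨h3, h4⟩ := (hd.cp i).of_zero h2
    exact ⟨h3, h1, i, h4⟩
  have hw : ∀ x ∈ hfin.toFinset, wgt r x = Real.log (r / ‖x‖) := by
    intro x hx
    rw [Set.Finite.mem_toFinset] at hx
    have h0 : x ≠ 0 := by
      rintro rfl
      have := hx.1
      rw [norm_zero] at this
      linarith
    unfold wgt
    rw [if_neg h0, if_pos hx.2.1]
  rw [← Finset.sum_congr rfl hw]
  exact Finset.sum_le_sum_of_subset_of_nonneg hsub fun x _ _ => wgt_nonneg (by linarith) x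

/-- comparison of the characteristics on one circle -/
theorem Tm_le_of {M N : ℕ} {v : ℂ → Fin (M + 1) → ℂ} {w : ℂ → Fin (N + 1) → ℂ} {r A : ℝ} {e : ℕ}
    (hr : 0 < r) (i1 : CircleIntegrable (fun z => Real.log ‖v z‖) 0 r)
    (i2 : CircleIntegrable (fun z => Real.log ‖w z‖) 0 r)
    (h : ∀ z, ‖z‖ = r → e * Real.log ‖v z‖ + A ≤ Real.log ‖w z‖) : e * Tm v r + A ≤ Tm w r := by
  have i3 : CircleIntegrable (fun z => (e : ℝ) * Real.log ‖v z‖) 0 r := i1.const_fun_smul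
  have e1 : e * Tm v r + A =
      Real.circleAverage (fun z => (e : ℝ) * Real.log ‖v z‖ + A) 0 r := by
    rw [Real.circleAverage_fun_add i3 (circleIntegrable_const _ _ _), Real.circleAverage_const]
    congr 1
    exact (Real.circleAverage_fun_smul (a := (e : ℝ)) (f := fun z => Real.log ‖v z‖)).symm
  rw [e1]
  apply Real.circleAverage_mono (i3.add (circleIntegrable_const _ _ _)) i2
  intro z hz
  rw [mem_sphere_zero_iff_norm, abs_of_pos hr] at hz
  exact h z hz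

theorem tr_ext {N n d : ℕ} (K : Type) [Field K] [Algebra ℂ K] (a : Fin (N + 1) → K)
    (hK : IntermediateField.adjoin ℂ {g : K | ∃ i j, a j ≠ 0 ∧ g = a i / a j} = ⊤)
    (f : Fin (n + 1) → MvPolynomial (Fin (N + 1)) ℂ) (e : ℕ) (he : 0 < e)
    (hf : ∀ i, (f i).IsHomogeneous e)
    (hf0 : ∀ i, aeval a (f i) ≠ 0)
    (hcz : ∀ x ∈ Cone a, x ≠ 0 → ∃ i, eval x (f i) ≠ 0)
    (halg : Algebra.IsAlgebraic
      (IntermediateField.adjoin ℂ (Set.range fun i => aeval a (f i) / aeval a (f 0))) K)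
    (hlgt : LogGeneralType ℂ K d fun P => ∃ i, P.ord (aeval a (f i)) ≠ P.ord (aeval a (f 0))) :
    ∃ (B : MvPolynomial (Fin (N + 1)) ℂ) (E : ℕ) (ε : ℝ) (m : ℕ), B.IsHomogeneous E ∧
      aeval a B ≠ 0 ∧ 0 < ε ∧
      ∀ w : ℂ → Fin (N + 1) → ℂ, (∀ l, AnalyticOnNhd ℂ (fun z => w z l) (Ext 1)) →
        (∀ z ∈ Ext 1, w z ≠ 0) → (∀ z ∈ Ext 1, w z ∈ Cone a) →
        (∃ z ∈ Ext 1, eval (w z) B ≠ 0) → Tra w →
        (∃ X : Set ℝ, volume X < ⊤ ∧ ∀ r, 2 < r → r ∉ X → ε * CharE w r ≤ CountE f w r) ∧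
        ∃ i z, 2 < ‖z‖ ∧ eval (w z) (f i) = 0 ∧
          analyticOrderAt (fun z => eval (w z) (f i)) z < m := by
  classical
  obtain ⟨B, E, F, μ, hB, hBa, hBf, hmain⟩ := liftext K a hK f e hf hf0 halg hlgt
  obtain ⟨c, hc0, hc⟩ := cone_bound (cone_closed a) (fun x hx t => cone_smul hx t) f he hf hcz
  obtain ⟨ε', hε'⟩ : ∃ ε' : ℝ, ε' = 1 / (2 * (n + 1) * (μ + 1)) := ⟨_, rfl⟩
  have hε'0 : 0 < ε' := by rw [hε']; positivity
  obtain ⟨m, hm⟩ := exists_nat_gt (((n : ℝ) + 2) / ε')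
  rw [div_lt_iff₀ hε'0, mul_comm (m : ℝ)] at hm
  refine ⟨B, E, ε' / 2, m, hB, hBa, by positivity, ?_⟩
  intro w hw hw0 hwS hwB htr
  obtain ⟨g, hg⟩ : ∃ g : ℂ → Fin (n + 1) → ℂ, ∀ z, g z = fun i => eval (w z) (f i) :=
    ⟨_, fun _ => rfl⟩
  have hgi : ∀ z i, g z i = eval (w z) (f i) := fun z i => by rw [hg]
  have han : ∀ i, AnalyticOnNhd ℂ (fun z => g z i) (Ext 1) := by
    intro i
    simp only [hgi]
    exact eval_an hw (f i)
  have hpos : ∀ z ∈ Ext 1, 0 < c * ‖w z‖ ^ e := fun z hz =>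
    mul_pos hc0 (pow_pos (norm_pos_iff.2 (hw0 z hz)) _)
  have hg0 : ∀ z ∈ Ext 1, g z ≠ 0 := fun z hz => by
    rw [hg]
    exact norm_pos_iff.1 ((hpos z hz).trans_le (hc _ (hwS z hz)))
  have hgne : ∀ i, ∃ z ∈ Ext 1, g z i ≠ 0 := by
    obtain ⟨z, hzE, hz⟩ := hwB
    exact fun i => ⟨z, hzE, by rw [hgi]; exact hBf _ hz i⟩
  obtain ⟨G, H, hd⟩ := exists_dat han hg0 hgne
  obtain ⟨C1, hC10, hC1⟩ := hd.lb
  -- comparison of the characteristics
  have hcmp : ∀ r, 4 ≤ r → e * Tm w r + (Real.log c - C1 * (1 + Real.log r)) ≤ Tm G r := by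
    intro r hr
    refine Tm_le_of (by linarith) (TmE_int hw hw0 (by linarith)) (Tm_int hd.diff hd.G0 r)
      fun z hz => ?_
    have hzE : z ∈ Ext 1 := by show 1 < ‖z‖; linarith
    have h1 := norm_g_le hd hC1 (z := z) (by linarith)
    have h2 : c * ‖w z‖ ^ e ≤ ‖g z‖ := by rw [hg]; exact hc _ (hwS z hzE)
    have h3 := Real.log_le_log (hpos z hzE) (h2.trans h1)
    rw [Real.log_mul hc0.ne' (pow_pos (norm_pos_iff.2 (hw0 z hzE)) _).ne', Real.log_pow,
      Real.log_mul (Real.exp_pos _).ne' (norm_ne_zero_iff.2 (hd.G0 z)), Real.log_exp, hz] at h3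
    linarith
  have he1 : (1 : ℝ) ≤ e := by exact_mod_cast he
  have hT0 : ∃ R0 : ℝ, ∀ r, R0 ≤ r → 0 ≤ Tm w r := by
    obtain ⟨R0, hR0⟩ := htr 0
    exact ⟨R0, fun r hr => by have := hR0 r hr; rwa [zero_mul] at this⟩
  obtain ⟨R1, hR1⟩ := hT0
  have hlow : ∀ C : ℝ, ∃ R0 : ℝ, ∀ r, R0 ≤ r → C * Real.log r + 1 / 2 * Tm w r ≤ Tm G r := by
    intro C
    obtain ⟨R0, hR0⟩ := htr (2 * (|C| + 2 * C1 + |Real.log c|))
    refine ⟨max (max R0 R1) (max 4 (Real.exp 1)), fun r hr => ?_⟩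
    have h1 : R0 ≤ r := ((le_max_left _ _).trans (le_max_left _ _)).trans hr
    have h2 : R1 ≤ r := ((le_max_right _ _).trans (le_max_left _ _)).trans hr
    have h3 : 4 ≤ r := ((le_max_left _ _).trans (le_max_right _ _)).trans hr
    have h4 : Real.exp 1 ≤ r := ((le_max_right _ _).trans (le_max_right _ _)).trans hr
    have h5 : 1 ≤ Real.log r := by
      rw [Real.le_log_iff_exp_le (by linarith)]
      exact h4
    have h6 := hR0 r h1
    have h7 := hR1 r h2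
    have h8 := hcmp r h3
    have h9 : Tm w r ≤ e * Tm w r := le_mul_of_one_le_left h7 he1
    have h10 := neg_abs_le (Real.log c)
    have h11 : C * Real.log r ≤ |C| * Real.log r :=
      mul_le_mul_of_nonneg_right (le_abs_self C) (by linarith)
    have h12 : C1 * (1 + Real.log r) ≤ C1 * (2 * Real.log r) :=
      mul_le_mul_of_nonneg_left (by linarith) hC10
    have h13 : |Real.log c| ≤ |Real.log c| * Real.log r := le_mul_of_one_le_right (abs_nonneg _) h5
    linarith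
  have htG : ∀ C : ℝ, ∃ R0 : ℝ, ∀ r, R0 ≤ r → C * Real.log r ≤ Tm G r := by
    intro C
    obtain ⟨R0, hR0⟩ := hlow C
    refine ⟨max R0 R1, fun r hr => ?_⟩
    have h1 := hR0 r ((le_max_left _ _).trans hr)
    have h2 := hR1 r ((le_max_right _ _).trans hr)
    linarith
  have h13 : Ext 3 ⊆ Ext 1 := Ext_mono (by norm_num)
  obtain ⟨hF, hno⟩ := hmain (cur hd) w (fun l => (hw l).mono h13)
    (fun H D hH hHa z hz => hwS z (h13 hz) H D hH hHa) (fun i z _ => hgi z i)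
    (ne_on_smaller one_pos (cur hd).hr0 (eval_an hw B) hwB)
  have hvol := grow hd htG F hF μ hno
  rw [← hε'] at hvol
  have hcount : ∀ r : ℝ, 2 < r → Nb G 1 r ≤ CountE f w r := by
    intro r hr
    have h1 := count_le hd hgne hr
    simp only [hgi] at h1
    exact h1
  refine ⟨?_, ?_⟩
  · obtain ⟨R2, hR2⟩ := hlow 1
    obtain ⟨R3, hR3⟩ : ∃ R3, R3 = max (max (max 1 R2) R1) (Real.exp |Tm w 2|) := ⟨_, rfl⟩
    refine ⟨{r : ℝ | 1 ≤ r ∧ Nb G 1 r < ε' * Tm G r} ∪ Set.Icc 0 R3, ?_, fun r hr hrX => ?_⟩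
    · refine lt_of_le_of_lt (measure_union_le _ _) ?_
      rw [Real.volume_Icc]
      exact ENNReal.add_lt_top.2 ⟨hvol, ENNReal.ofReal_lt_top⟩
    · have h1 : R3 < r := by
        by_contra h
        exact hrX (Or.inr ⟨by linarith, not_lt.1 h⟩)
      rw [hR3] at h1
      have h2 : 1 ≤ r := by linarith
      have h3 : R2 ≤ r :=
        (((le_max_right _ _).trans (le_max_left _ _)).trans (le_max_left _ _)).trans h1.le
      have h4 : Real.exp |Tm w 2| ≤ r := (le_max_right _ _).trans h1.le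
      have h5 : |Tm w 2| ≤ Real.log r := by
        rw [Real.le_log_iff_exp_le (by linarith)]
        exact h4
      have h6 := hR2 r h3
      rw [one_mul] at h6
      have h7 : ε' * Tm G r ≤ Nb G 1 r := by
        by_contra h
        exact hrX (Or.inl ⟨h2, not_le.1 h⟩)
      have h8 := hcount r hr
      have h9 := neg_abs_le (Tm w 2)
      have h10 : 1 / 2 * CharE w r ≤ Tm G r := by
        show 1 / 2 * (Tm w r - Tm w 2) ≤ _
        have := abs_nonneg (Tm w 2)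
        linarith
      have h11 := mul_le_mul_of_nonneg_left h10 hε'0.le
      linarith
  · by_contra hcon
    push Not at hcon
    have hQ : ∃ y, eval (G y) (1 : MvPolynomial (Fin (n + 1)) ℂ) ≠ 0 := ⟨0, eval_one _⟩
    obtain ⟨c2, hc20, hc2⟩ := Nb_le_mult (isHomogeneous_one _ _) hd.diff hd.G0 hQ (m := m)
      (fun p hp x hx => by
        cases p with
        | none => exact absurd hx (eval_one _)
        | some l =>
          have h1 : G x l = 0 := hx
          obtain ⟨h2, h3⟩ := (hd.cp l).of_zero h1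
          have h4 := hcon l x h2 (by rw [← hgi]; exact h3)
          have h5 : (m : ℕ∞) ≤ analyticOrderAt (fun z => G z l) x := by
            rw [(hd.cp l).ord_eq h1]
            simp only [hgi]
            exact h4
          rw [← oo_cast (hd.cp l).vd (hd.Gne l) x] at h5
          exact_mod_cast h5)
    obtain ⟨R2, hR2⟩ := htG 1
    obtain ⟨δ, hδ⟩ : ∃ δ : ℝ, δ = ε' * m - (n + 2) := ⟨_, rfl⟩
    have hδ0 : 0 < δ := by rw [hδ]; linarith
    obtain ⟨r, hr, hrX⟩ := not_finite_Ici hvol (max (max 1 R2)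
      (Real.exp (((n + 2) * c2 + 1) / δ)))
    have hr1 : 1 ≤ r := ((le_max_left _ _).trans (le_max_left _ _)).trans hr
    have hr2 : R2 ≤ r := ((le_max_right _ _).trans (le_max_left _ _)).trans hr
    have hr3 : ((n + 2) * c2 + 1) / δ ≤ Real.log r := by
      rw [Real.le_log_iff_exp_le (by linarith)]
      exact (le_max_right _ _).trans hr
    have h1 : ε' * Tm G r ≤ Nb G 1 r := by
      by_contra h
      exact hrX ⟨hr1, not_le.1 h⟩
    have h2 := (hc2 r hr1).2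
    rw [Nat.cast_zero, add_zero] at h2
    have h3 := hR2 r hr2
    rw [one_mul] at h3
    have h4 : ((n + 2) * c2 + 1) / δ ≤ Tm G r := hr3.trans h3
    rw [div_le_iff₀ hδ0] at h4
    have hm0 : (0 : ℝ) ≤ m := Nat.cast_nonneg m
    have h5 := mul_le_mul_of_nonneg_left h1 hm0
    have h6 : Tm G r * δ ≤ (n + 2) * c2 := by
      rw [hδ]
      nlinarith
    linarith

end Pool.Agent.Q161.PD
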